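import Pool.Agent.Helper52.FT.Strip3

/-!
# FT-COMP: compactness of tori
-/

set_option autoImplicit false

namespace Pool.Agent.Helper52.FT

open Complex Set Filter Topology
open Pool.Agent.Helper76.FT

/-- Arzela-Ascoli for sequences -/
theorem arzela_seq {X : Type*} [MetricSpace X] [CompactSpace X] (F : ℕ → X → ℂ) (M : ℝ)
    (L : NNReal) (hM : ∀ n x, ‖F n x‖ ≤ M) (hL : ∀ n, LipschitzWith L (F n)) :
    ∃ (f : X → ℂ) (φ : ℕ → ℕ), StrictMono φ ∧ TendstoUniformly (fun k => F (φ k)) f atTop := by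
  obtain ⟨G, hG⟩ : ∃ G : ℕ → BoundedContinuousFunction X ℂ, G = fun n =>
      BoundedContinuousFunction.mkOfCompact ⟨F n, (hL n).continuous⟩ := ⟨_, rfl⟩
  have hGF : ∀ n x, G n x = F n x := by
    intro n x
    rw [hG]
    rfl
  have hcomp : IsCompact (closure (range G)) := by
    apply BoundedContinuousFunction.arzela_ascoli (Metric.closedBall (0:ℂ) M)
      (isCompact_closedBall _ _) (range G)
    · rintro f x ⟨n, rfl⟩
      rw [mem_closedBall_zero_iff, hGF]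
      exact hM n x
    · have : UniformEquicontinuous ((↑) : range G → X → ℂ) := by
        apply LipschitzWith.uniformEquicontinuous _ L
        rintro ⟨f, n, rfl⟩
        have : (⇑(G n) : X → ℂ) = F n := funext (hGF n)
        change LipschitzWith L (⇑(G n))
        rw [this]
        exact hL n
      exact this.equicontinuous
  obtain ⟨f, -, φ, hφ, hlim⟩ := hcomp.tendsto_subseq (x := G)
    (fun n => subset_closure (mem_range_self n))
  refine ⟨f, φ, hφ, ?_⟩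
  rw [BoundedContinuousFunction.tendsto_iff_tendstoUniformly] at hlim
  have he : (fun k => F (φ k)) = fun k => ⇑((G ∘ φ) k) := by
    funext k x
    exact (hGF (φ k) x).symm
  rw [he]
  exact hlim

theorem convex_Str (ρ : ℝ) : Convex ℝ (Str ρ) := by
  have : Str ρ = {z : ℂ | z.im < ρ} ∩ {z : ℂ | -ρ < z.im} := by
    ext z
    simp only [Str, mem_ofPred_eq, abs_lt, mem_inter_iff]
    tauto
  rw [this]
  exact (convex_halfSpace_im_lt ρ).inter (convex_halfSpace_im_gt (-ρ))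

theorem Str_mono {ρ ρ' : ℝ} (h : ρ' ≤ ρ) : Str ρ' ⊆ Str ρ := fun _ hz => lt_of_lt_of_le hz h

theorem closedBall_Str {ρ R : ℝ} {z : ℂ} (hz : z ∈ Str (ρ / 2)) (hR : R ≤ ρ / 2) :
    Metric.closedBall z R ⊆ Str ρ := by
  intro y hy
  have hz' : |z.im| < ρ / 2 := hz
  rw [Metric.mem_closedBall, Complex.dist_eq] at hy
  have h1 := Complex.abs_im_le_norm (y - z)
  simp only [Complex.sub_im] at h1
  have h2 : |y.im| ≤ |y.im - z.im| + |z.im| := by
    have := abs_sub_le y.im z.im 0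
    simpa using this
  change |y.im| < ρ
  linarith

/-- uniform bound on the strip -/
theorem tor_bound {S : Sys} (hS : S.Ok) (hReg : GReg) : ∃ M : ℝ, 0 < M ∧
    ∀ (δ ρ : ℝ) (w : ℂ → ℝ → ℂ) (c : ℂ), Tor S δ w ρ c → ∀ z ∈ Str ρ, ∀ t ∈ Icc (0:ℝ) 1,
      ‖w z t‖ ≤ M := by
  obtain ⟨-, -, -, -, ⟨M, hM⟩, -⟩ := hReg S hS
  refine ⟨|M| + S.r, by have := hS.hr; positivity, ?_⟩
  intro δ ρ w c hT z hz t ht
  obtain ⟨y, hy, -, hy2⟩ := hT.nb z hz t ht
  have h1 := hM t ht y hy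
  have h2 : ‖w z t‖ ≤ ‖w z t - (y.2 : ℂ)‖ + ‖(y.2 : ℂ)‖ := by
    have := norm_add_le (w z t - (y.2 : ℂ)) (y.2 : ℂ)
    simpa using this
  rw [Complex.norm_real, Real.norm_eq_abs] at h2
  have h3 := le_abs_self M
  have hy2' : ‖w z t - (y.2 : ℂ)‖ < S.r := hy2
  linarith

/-- uniform Lipschitz estimate on the half strip -/
theorem tor_lip {S : Sys} (hS : S.Ok) (hTorP : GTorP) {M : ℝ} (hM0 : 0 < M)
    {δ ρ : ℝ} {w : ℂ → ℝ → ℂ} {c : ℂ} (hT : Tor S δ w ρ c)
    (hM : ∀ z ∈ Str ρ, ∀ t ∈ Icc (0:ℝ) 1, ‖w z t‖ ≤ M) {z z' : ℂ} (hz : z ∈ Str (ρ / 2))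
    (hz' : z' ∈ Str (ρ / 2)) {t t' : ℝ} (ht : t ∈ Icc (0:ℝ) 1) (ht' : t' ∈ Icc (0:ℝ) 1) :
    ‖w z t - w z' t'‖ ≤ M / (ρ / 4) * ‖z - z'‖ + M * (M / (ρ / 4)) * |t - t'| := by
  have hρ := hT.hρ
  obtain ⟨_, _, _, _, htp⟩ := hTorP S hS
  obtain ⟨-, -, -, -, hder, -⟩ := htp δ ρ w c hT
  have hsub : Str (ρ / 2) ⊆ Str ρ := Str_mono (by linarith)
  have hdz : ∀ y ∈ Str (ρ / 2), ∀ s ∈ Icc (0:ℝ) 1, ‖dz w y s‖ ≤ M / (ρ / 4) := by
    intro y hy s hs
    have hcb : Metric.closedBall y (ρ / 4) ⊆ Str ρ := closedBall_Str hy (by linarith)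
    apply Complex.norm_deriv_le_of_forall_mem_sphere_norm_le (by positivity)
    · apply DifferentiableOn.diffContOnCl
      rw [closure_ball _ (by positivity)]
      exact (hT.sh.hol s hs).mono hcb
    · intro x hx
      exact hM x (hcb (Metric.sphere_subset_closedBall hx)) s hs
  have h1 : ‖w z t - w z' t‖ ≤ M / (ρ / 4) * ‖z - z'‖ := by
    apply Convex.norm_image_sub_le_of_norm_deriv_le (f := fun y => w y t) (s := Str (ρ / 2))
      _ (fun y hy => hdz y hy t ht) (convex_Str _) hz' hz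
    intro y hy
    exact ((hT.sh.hol t ht) y (hsub hy)).differentiableAt ((isOpen_Str ρ).mem_nhds (hsub hy))
  have h2 : ‖w z' t - w z' t'‖ ≤ M * (M / (ρ / 4)) * |t - t'| := by
    have := Convex.norm_image_sub_le_of_norm_hasDerivWithin_le (f := fun s => w z' s)
      (f' := fun s => -(w z' s * dz w z' s)) (s := Icc (0:ℝ) 1) (C := M * (M / (ρ / 4)))
      (fun s hs => hder z' (hsub hz') s hs)
      (fun s hs => by
        rw [norm_neg, norm_mul]
        exact mul_le_mul (hM z' (hsub hz') s hs) (hdz z' hz' s hs) (norm_nonneg _) hM0.le)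
      (convex_Icc 0 1) ht' ht
    exact this
  calc ‖w z t - w z' t'‖ = ‖(w z t - w z' t) + (w z' t - w z' t')‖ := by ring_nf
    _ ≤ ‖w z t - w z' t‖ + ‖w z' t - w z' t'‖ := norm_add_le _ _
    _ ≤ _ := add_le_add h1 h2

/-- integer periodicity -/
theorem sh_per_int {f : ℂ → ℝ → ℂ} {ρ : ℝ} (h : SH f ρ) {z : ℂ} (hz : z ∈ Str ρ) {t : ℝ}
    (ht : t ∈ Icc (0:ℝ) 1) (m : ℤ) : f (z + m) t = f z t := by
  have hS : ∀ m : ℤ, z + m ∈ Str ρ := by
    intro m
    have hz' : |z.im| < ρ := hz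
    change |(z + (m:ℂ)).im| < ρ
    simpa using hz'
  induction m using Int.induction_on with
  | zero => simp
  | succ i ih =>
    have := h.per _ (hS i) t ht
    rw [← ih, ← this]
    push_cast
    ring_nf
  | pred i ih =>
    have := h.per _ (hS (-i - 1)) t ht
    rw [← ih, ← this]
    push_cast
    ring_nf

/-- a sequence of tori in one strip has a subsequence converging uniformly on the quarter strip -/
theorem tor_subseq {S : Sys} (hS : S.Ok) (hTorP : GTorP) {M : ℝ} (hM0 : 0 < M) {δ ρ : ℝ}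
    {v : ℕ → ℂ → ℝ → ℂ} {c : ℕ → ℂ} (hT : ∀ n, Tor S δ (v n) ρ (c n))
    (hM : ∀ n, ∀ z ∈ Str ρ, ∀ t ∈ Icc (0:ℝ) 1, ‖v n z t‖ ≤ M) :
    ∃ (w' : ℂ → ℝ → ℂ) (φ : ℕ → ℕ), StrictMono φ ∧
      TendstoUniformlyOn (fun k (z : ℂ × ℝ) => v (φ k) z.1 z.2) (fun z => w' z.1 z.2) atTop
        (Str (ρ / 4) ×ˢ Icc (0:ℝ) 1) := by
  classical
  have hρ := (hT 0).hρ
  obtain ⟨K, hK⟩ : ∃ K : Set (ℂ × ℝ), K = (Icc (-2:ℝ) 2 ×ℂ Icc (-(ρ / 4)) (ρ / 4)) ×ˢ
    Icc (0:ℝ) 1 := ⟨_, rfl⟩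
  have hKc : IsCompact K := by
    rw [hK]
    exact (isCompact_Icc.reProdIm isCompact_Icc).prod isCompact_Icc
  have hcs : CompactSpace K := isCompact_iff_compactSpace.1 hKc
  have hKs : ∀ x ∈ K, x.1 ∈ Str (ρ / 2) ∧ x.2 ∈ Icc (0:ℝ) 1 := by
    intro x hx
    rw [hK] at hx
    obtain ⟨h1, h2⟩ := hx
    rw [mem_reProdIm] at h1
    refine ⟨?_, h2⟩
    have : |x.1.im| ≤ ρ / 4 := abs_le.2 h1.2
    change |x.1.im| < ρ / 2
    linarith
  have hL0 : 0 ≤ M / (ρ / 4) + M * (M / (ρ / 4)) := by positivity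
  obtain ⟨f, φ, hφ, hlim⟩ := arzela_seq (X := K) (fun n x => v n x.1.1 x.1.2) M
    ⟨M / (ρ / 4) + M * (M / (ρ / 4)), hL0⟩
    (by
      intro n x
      obtain ⟨h1, h2⟩ := hKs x.1 x.2
      exact hM n _ (Str_mono (by linarith) h1) _ h2)
    (by
      intro n
      apply LipschitzWith.of_dist_le_mul
      intro x y
      obtain ⟨h1, h2⟩ := hKs x.1 x.2
      obtain ⟨h3, h4⟩ := hKs y.1 y.2
      have := tor_lip hS hTorP hM0 (hT n) (hM n) h1 h3 h2 h4
      rw [dist_eq_norm]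
      refine this.trans ?_
      have e1 : ‖x.1.1 - y.1.1‖ ≤ dist x y := by
        rw [Subtype.dist_eq, dist_eq_norm]; exact norm_fst_le (x.1 - y.1)
      have e2 : |x.1.2 - y.1.2| ≤ dist x y := by
        rw [Subtype.dist_eq, dist_eq_norm]; exact norm_snd_le (x.1 - y.1)
      have p1 : 0 ≤ M / (ρ / 4) := by positivity
      have p2 : 0 ≤ M * (M / (ρ / 4)) := by positivity
      change _ ≤ (M / (ρ / 4) + M * (M / (ρ / 4))) * dist x y
      nlinarith [mul_le_mul_of_nonneg_left e1 p1, mul_le_mul_of_nonneg_left e2 p2])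
  have hmem : ∀ z ∈ Str (ρ / 4), ∀ t ∈ Icc (0:ℝ) 1, (z - (⌊z.re⌋ : ℂ), t) ∈ K := by
    intro z hz t ht
    rw [hK]
    refine ⟨?_, ht⟩
    rw [mem_reProdIm]
    have hz' : |z.im| < ρ / 4 := hz
    have h1 := Int.floor_le z.re
    have h2 := Int.lt_floor_add_one z.re
    constructor
    · simp only [sub_re, intCast_re]
      constructor <;> linarith
    · simp only [sub_im, intCast_im, sub_zero]
      exact abs_le.1 hz'.le
  refine ⟨fun z t => if h : (z - (⌊z.re⌋ : ℂ), t) ∈ K then f ⟨_, h⟩ else 0, φ, hφ, ?_⟩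
  rw [Metric.tendstoUniformlyOn_iff]
  rw [Metric.tendstoUniformly_iff] at hlim
  intro ε hε
  filter_upwards [hlim ε hε] with k hk x hx
  have hm := hmem x.1 hx.1 x.2 hx.2
  simp only [dif_pos hm]
  have := hk ⟨_, hm⟩
  simp only at this
  have hx2 : x.1 ∈ Str ρ := Str_mono (by linarith) hx.1
  have e : v (φ k) (x.1 - (⌊x.1.re⌋ : ℂ)) x.2 = v (φ k) x.1 x.2 := by
    have := sh_per_int (hT (φ k)).sh hx2 hx.2 (-⌊x.1.re⌋)
    rw [← this]
    push_cast
    ring_nf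
  rwa [e] at this

theorem ft_comp : GReg → GMom → GTorP → GStrip → GComp := by
  intro hReg hMom hTorP hStrip S hS
  obtain ⟨δ1, a, k, hδ1, ha, hk, hstrip⟩ := hStrip S hS
  have hr := hS.hr
  refine ⟨min δ1 (S.r / 4), by positivity, ?_⟩
  intro δ h ρ w c c' hδ hh hT hlow hc
  have hδa : δ ≤ δ1 := hδ.trans (min_le_left _ _)
  have hδb : δ ≤ S.r / 4 := hδ.trans (min_le_right _ _)
  have hex : ∀ n, ∃ w' : ℂ → ℝ → ℂ, Tor S δ w' (a * (min h 1) ^ k) (c n) ∧
      ∀ x : ℝ, ∀ t ∈ Icc (0:ℝ) 1, w' (x : ℂ) t = w n (x : ℂ) t := by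
    intro n
    exact hstrip δ (ρ n) (w n) (c n) hδa (hT n) (min h 1) (by positivity) (min_le_right _ _)
      (fun x t ht => (min_le_left _ _).trans (hlow n x t ht))
  choose v hv hvw using hex
  obtain ⟨ρ0, hρ0⟩ : ∃ ρ0 : ℝ, ρ0 = a * (min h 1) ^ k := ⟨_, rfl⟩
  rw [← hρ0] at hv
  have hρ0p : 0 < ρ0 := (hv 0).hρ
  obtain ⟨M, hM0, hMb⟩ := tor_bound hS hReg
  have hM : ∀ n, ∀ z ∈ Str ρ0, ∀ t ∈ Icc (0:ℝ) 1, ‖v n z t‖ ≤ M := fun n =>
    hMb δ ρ0 (v n) (c n) (hv n)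
  obtain ⟨w', φ, hφ, hlim⟩ := tor_subseq hS hTorP hM0 hv hM
  obtain ⟨L, hL⟩ : ∃ L : ℝ, L = M / (ρ0 / 4) := ⟨_, rfl⟩
  have hL0 : 0 < L := by rw [hL]; positivity
  obtain ⟨ρ', hρ'0, hρ'1, hρ'2, hρ'3⟩ : ∃ ρ' : ℝ, 0 < ρ' ∧ ρ' ≤ ρ0 / 8 ∧ L * ρ' ≤ S.r / 4 ∧
      ρ' ≤ S.r / 2 := by
    refine ⟨min (ρ0 / 8) (min (S.r / 4 / L) (S.r / 2)), by positivity, min_le_left _ _, ?_, ?_⟩
    · have : min (ρ0 / 8) (min (S.r / 4 / L) (S.r / 2)) ≤ S.r / 4 / L :=
        (min_le_right _ _).trans (min_le_left _ _)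
      have h2 := mul_le_mul_of_nonneg_left this hL0.le
      have h3 : L * (S.r / 4 / L) = S.r / 4 := by field_simp
      linarith
    · exact (min_le_right _ _).trans (min_le_right _ _)
  have hsub4 : Str ρ' ⊆ Str (ρ0 / 4) := Str_mono (by linarith)
  have hsub2 : Str ρ' ⊆ Str (ρ0 / 2) := Str_mono (by linarith)
  have hsub0 : Str ρ' ⊆ Str ρ0 := Str_mono (by linarith)
  have hpt : ∀ z ∈ Str (ρ0 / 4), ∀ t ∈ Icc (0:ℝ) 1,
      Tendsto (fun k => v (φ k) z t) atTop (𝓝 (w' z t)) := by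
    intro z hz t ht
    exact hlim.tendsto_at (x := (z, t)) ⟨hz, ht⟩
  have hreal4 : ∀ x : ℝ, (x : ℂ) ∈ Str (ρ0 / 4) := fun x => str_real (by positivity) x
  -- limits of the inequalities
  have hposl : ∀ x : ℝ, ∀ t ∈ Icc (0:ℝ) 1, h ≤ (w' (x : ℂ) t).im ∧ (w' (x : ℂ) t).im ≤ δ := by
    intro x t ht
    have h1 : Tendsto (fun k => (v (φ k) (x : ℂ) t).im) atTop (𝓝 (w' (x : ℂ) t).im) :=
      (Complex.continuous_im.tendsto _).comp (hpt x (hreal4 x) t ht)
    constructor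
    · apply ge_of_tendsto' h1
      intro k
      rw [hvw (φ k) x t ht]
      exact hlow (φ k) x t ht
    · apply le_of_tendsto' h1
      intro k
      exact ((hv (φ k)).pos x t ht).2
  have hregl : ∀ x : ℝ, ∀ t ∈ Icc (0:ℝ) 1, (x, (w' (x : ℂ) t).re) ∈ S.Reg t := by
    intro x t ht
    have h1 : Tendsto (fun k => (v (φ k) (x : ℂ) t).re) atTop (𝓝 (w' (x : ℂ) t).re) :=
      (Complex.continuous_re.tendsto _).comp (hpt x (hreal4 x) t ht)
    constructor
    · apply ge_of_tendsto' h1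
      intro k
      exact ((hv (φ k)).reg x t ht).1
    · apply le_of_tendsto' h1
      intro k
      exact ((hv (φ k)).reg x t ht).2
  have hlip : ∀ k, ∀ z ∈ Str (ρ0 / 2), ∀ z' ∈ Str (ρ0 / 2), ∀ t ∈ Icc (0:ℝ) 1,
      ‖v k z t - v k z' t‖ ≤ L * ‖z - z'‖ := by
    intro k z hz z' hz' t ht
    have := tor_lip hS hTorP hM0 (hv k) (hM k) hz hz' ht ht
    rw [sub_self, abs_zero, mul_zero, add_zero, ← hL] at this
    exact this
  have hlipl : ∀ z ∈ Str (ρ0 / 4), ∀ z' ∈ Str (ρ0 / 4), ∀ t ∈ Icc (0:ℝ) 1,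
      ‖w' z t - w' z' t‖ ≤ L * ‖z - z'‖ := by
    intro z hz z' hz' t ht
    have h1 := ((hpt z hz t ht).sub (hpt z' hz' t ht)).norm
    apply le_of_tendsto' h1
    intro k
    exact hlip (φ k) z (Str_mono (by linarith) hz) z' (Str_mono (by linarith) hz') t ht
  have hnb : ∀ z ∈ Str ρ', ∀ t ∈ Icc (0:ℝ) 1, (z, w' z t) ∈ S.Nb t S.r := by
    intro z hz t ht
    have hz' : |z.im| < ρ' := hz
    have hn : ‖z - (z.re : ℂ)‖ = |z.im| := by
      have : z - (z.re : ℂ) = (z.im : ℂ) * I := by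
        apply Complex.ext <;> simp
      rw [this, norm_mul, Complex.norm_I, mul_one, Complex.norm_real, Real.norm_eq_abs]
    have h1 := hlipl z (hsub4 hz) z.re (hreal4 z.re) t ht
    rw [hn] at h1
    have h2 : ‖w' z t - w' (z.re : ℂ) t‖ ≤ S.r / 4 := by
      refine h1.trans (le_trans ?_ hρ'2)
      exact mul_le_mul_of_nonneg_left hz'.le hL0.le
    refine ⟨(z.re, (w' (z.re : ℂ) t).re), hregl z.re t ht, ?_, ?_⟩
    · change ‖z - (z.re : ℂ)‖ < S.r
      rw [hn]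
      linarith
    · change ‖w' z t - ((w' (z.re : ℂ) t).re : ℂ)‖ < S.r
      have e4 : w' z t - ((w' (z.re : ℂ) t).re : ℂ)
          = (w' z t - w' (z.re : ℂ) t) + ((w' (z.re : ℂ) t).im : ℂ) * I := by
        have := Complex.re_add_im (w' (z.re : ℂ) t)
        linear_combination -this
      rw [e4]
      refine (norm_add_le _ _).trans_lt ?_
      rw [norm_mul, Complex.norm_I, mul_one, Complex.norm_real, Real.norm_eq_abs]
      obtain ⟨p1, p2⟩ := hposl z.re t ht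
      rw [abs_of_pos (by linarith)]
      linarith
  obtain ⟨-, -, -, -, -, hNbo, -⟩ := hReg S hS
  refine ⟨w', ρ', φ, hφ, ?_, ?_, fun x t ht => (hposl x t ht).1⟩
  · refine ⟨hρ'0, ⟨?_, ?_, ?_⟩, hnb, ?_, ?_, ?_, hregl, ?_⟩
    · -- holomorphic
      intro t ht
      have h1 : TendstoUniformlyOn (fun k z => v (φ k) z t) (fun z => w' z t) atTop (Str ρ') := by
        rw [Metric.tendstoUniformlyOn_iff] at hlim ⊢
        intro ε hε
        filter_upwards [hlim ε hε] with k hk z hz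
        exact hk (z, t) ⟨hsub4 hz, ht⟩
      apply h1.tendstoLocallyUniformlyOn.differentiableOn _ (isOpen_Str ρ')
      exact Filter.Eventually.of_forall fun k => ((hv (φ k)).sh.hol t ht).mono hsub0
    · -- continuous
      have h1 : TendstoUniformlyOn (fun k (z : ℂ × ℝ) => v (φ k) z.1 z.2) (fun z => w' z.1 z.2)
          atTop (Str ρ' ×ˢ Icc (0:ℝ) 1) := hlim.mono (prod_mono hsub4 Subset.rfl)
      apply h1.continuousOn
      exact Filter.Frequently.of_forall fun k =>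
        ((hv (φ k)).sh.cont).mono (prod_mono hsub0 Subset.rfl)
    · -- periodic
      intro z hz t ht
      have hz1 : z + 1 ∈ Str ρ' := by
        have : |z.im| < ρ' := hz
        simpa [Str] using this
      apply tendsto_nhds_unique (hpt (z + 1) (hsub4 hz1) t ht)
      refine (hpt z (hsub4 hz) t ht).congr ?_
      intro k
      exact ((hv (φ k)).sh.per z (hsub0 hz) t ht).symm
    · -- line
      intro z hz s hs t ht hz2
      have h1 := hpt z (hsub4 hz) t ht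
      have h2 : Tendsto (fun k => z + ((s:ℂ) - t) * v (φ k) z t) atTop
          (𝓝 (z + ((s:ℂ) - t) * w' z t)) := (h1.const_mul _).const_add _
      have h3 : ∀ᶠ k in atTop, z + ((s:ℂ) - t) * v (φ k) z t ∈ Str ρ' :=
        h2.eventually ((isOpen_Str ρ').mem_nhds hz2)
      have h4 := hpt _ (hsub4 hz2) s hs
      have h5 : Tendsto (fun k => v (φ k) (z + ((s:ℂ) - t) * v (φ k) z t) s) atTop
          (𝓝 (w' (z + ((s:ℂ) - t) * w' z t) s)) := by
        have h6 : Tendsto (fun k => v (φ k) (z + ((s:ℂ) - t) * v (φ k) z t) s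
            - v (φ k) (z + ((s:ℂ) - t) * w' z t) s) atTop (𝓝 0) := by
          rw [tendsto_zero_iff_norm_tendsto_zero]
          have h7 : Tendsto (fun k => L * ‖(z + ((s:ℂ) - t) * v (φ k) z t)
              - (z + ((s:ℂ) - t) * w' z t)‖) atTop (𝓝 0) := by
            have := ((h2.sub_const (z + ((s:ℂ) - t) * w' z t)).norm).const_mul L
            simpa using this
          apply squeeze_zero' (Filter.Eventually.of_forall fun _ => norm_nonneg _) _ h7
          filter_upwards [h3] with k hk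
          exact hlip (φ k) _ (hsub2 hk) _ (hsub2 hz2) s hs
        have := h6.add h4
        simpa using this
      apply tendsto_nhds_unique h5
      refine h1.congr' ?_
      filter_upwards [h3] with k hk
      exact ((hv (φ k)).line z (hsub0 hz) s hs t ht (hsub0 hk)).symm
    · -- kick
      intro z hz
      have ht0 : (0:ℝ) ∈ Icc (0:ℝ) 1 := ⟨le_rfl, zero_le_one⟩
      have ht1 : (1:ℝ) ∈ Icc (0:ℝ) 1 := ⟨zero_le_one, le_rfl⟩
      apply tendsto_nhds_unique (hpt z (hsub4 hz) 0 ht0)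
      have hKc : ContinuousAt (fun q : ℂ × ℂ => S.K q.1 q.2) (z, w' z 1) :=
        (hS.Khol.continuousOn).continuousAt ((hNbo 1 S.r).mem_nhds (hnb z hz 1 ht1))
      have h1 : Tendsto (fun k => ((z, v (φ k) z 1) : ℂ × ℂ)) atTop (𝓝 (z, w' z 1)) :=
        tendsto_const_nhds.prodMk_nhds (hpt z (hsub4 hz) 1 ht1)
      refine (hKc.tendsto.comp h1).congr ?_
      intro k
      exact ((hv (φ k)).kick z (hsub0 hz)).symm
    · -- pos
      intro x t ht
      obtain ⟨p1, p2⟩ := hposl x t ht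
      exact ⟨by linarith, p2⟩
    · -- mean
      have ht0 : (0:ℝ) ∈ Icc (0:ℝ) 1 := ⟨le_rfl, zero_le_one⟩
      obtain ⟨km, Mm, hkm, hMm, -, -, hmom⟩ := hMom S hS
      obtain ⟨kt, Mt, hkt, hMt, htp⟩ := hTorP S hS
      have hpc : ∀ z ∈ S.Nb 0 S.r, ContinuousAt (fun q : ℂ × ℂ => S.p 0 q.1 q.2) z := by
        intro z hz
        exact ((hmom 0 ht0).1.continuousOn).continuousAt ((hNbo 0 S.r).mem_nhds hz)
      have h1 : Tendsto (fun k => ∫ x in (0:ℝ)..1, S.p 0 (x : ℂ) (v (φ k) (x : ℂ) 0)) atTop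
          (𝓝 (∫ x in (0:ℝ)..1, S.p 0 (x : ℂ) (w' (x : ℂ) 0))) := by
        apply intervalIntegral.tendsto_integral_filter_of_dominated_convergence (fun _ => Mt)
        · filter_upwards with k
          apply Continuous.aestronglyMeasurable
          have := (htp δ ρ0 (v (φ k)) _ (hv (φ k))).1.cont
          have h2 : ContinuousOn (fun q : ℝ => ((q : ℂ), (0:ℝ))) univ := by fun_prop
          have h3 := this.comp h2 (fun q _ => ⟨str_real hρ0p q, ht0⟩)
          rw [← continuousOn_univ]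
          exact h3
        · filter_upwards with k
          filter_upwards with x _
          exact ((htp δ ρ0 (v (φ k)) _ (hv (φ k))).2.2.2.2.2.2 x 0 ht0).2.2.2.1
        · exact intervalIntegrable_const
        · filter_upwards with x _
          have h2 : Tendsto (fun k => (((x : ℂ), v (φ k) (x : ℂ) 0) : ℂ × ℂ)) atTop
              (𝓝 ((x : ℂ), w' (x : ℂ) 0)) :=
            tendsto_const_nhds.prodMk_nhds (hpt x (hreal4 x) 0 ht0)
          exact (hpc _ (hnb x (str_real hρ'0 x) 0 ht0)).tendsto.comp h2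
      apply tendsto_nhds_unique h1
      refine (hc.comp hφ.tendsto_atTop).congr ?_
      intro k
      exact ((hv (φ k)).mean).symm
  · rw [Metric.tendstoUniformlyOn_iff] at hlim ⊢
    intro ε hε
    filter_upwards [hlim ε hε] with k hk x hx
    have := hk ((x.1 : ℂ), x.2) ⟨hreal4 x.1, hx.2⟩
    simp only at this
    rw [hvw (φ k) x.1 x.2 hx.2] at this
    exact this

end Pool.Agent.Helper52.FT
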