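import Pool.Agent.Helper76.FT.GoalsB

/-!
# FT-REFL: Schwarz reflection
-/

set_option autoImplicit false

namespace Pool.Agent.Helper52.FT

open Complex Set Filter Topology Metric MeasureTheory
open Pool.Agent.Helper76.FT
open scoped Interval

/-- boundary integral of a rectangle whose interior does not meet the real axis -/
theorem bd_zero_of_off (F : ℂ → ℂ) (S : Set ℂ) (hS : IsOpen S) (hc : ContinuousOn F S)
    (hd : ∀ z ∈ S, z.im ≠ 0 → DifferentiableAt ℂ F z) (z w : ℂ)
    (hr : ([[z.re, w.re]] ×ℂ [[z.im, w.im]]) ⊆ S)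
    (h0 : (0:ℝ) ∉ Ioo (min z.im w.im) (max z.im w.im)) :
    (∫ x : ℝ in z.re..w.re, F (x + z.im * I)) - (∫ x : ℝ in z.re..w.re, F (x + w.im * I)) +
      I • (∫ y : ℝ in z.im..w.im, F (w.re + y * I)) -
      I • (∫ y : ℝ in z.im..w.im, F (z.re + y * I)) = 0 := by
  apply integral_boundary_rect_eq_zero_of_continuousOn_of_differentiableOn F z w (hc.mono hr)
  intro c hc'
  apply DifferentiableAt.differentiableWithinAt
  rw [mem_reProdIm] at hc'
  apply hd c
  · apply hr
    rw [mem_reProdIm]
    exact ⟨Ioo_subset_Icc_self hc'.1, Ioo_subset_Icc_self hc'.2⟩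
  · intro h
    rw [h] at hc'
    exact h0 hc'.2

/-- the real axis is removable for continuous functions (on a disc) -/
theorem diffOn_ball_of_off (F : ℂ → ℂ) (c : ℂ) (r : ℝ) (hc : ContinuousOn F (ball c r))
    (hd : ∀ z ∈ ball c r, z.im ≠ 0 → DifferentiableAt ℂ F z) :
    DifferentiableOn ℂ F (ball c r) := by
  have hcons : IsConservativeOn F (ball c r) := by
    intro z w hzw
    rw [← add_eq_zero_iff_eq_neg, wedgeIntegral_add_wedgeIntegral_eq]
    have hzw' : ([[z.re, w.re]] ×ℂ [[z.im, w.im]]) ⊆ ball c r := hzw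
    by_cases h0 : (0:ℝ) ∈ Ioo (min z.im w.im) (max z.im w.im)
    · have h0' : (0:ℝ) ∈ [[z.im, w.im]] := Ioo_subset_Icc_self h0
      have hs1 : [[z.im, (0:ℝ)]] ⊆ [[z.im, w.im]] := uIcc_subset_uIcc_left h0'
      have hs2 : [[(0:ℝ), w.im]] ⊆ [[z.im, w.im]] := uIcc_subset_uIcc_right h0'
      have b1 := bd_zero_of_off F (ball c r) isOpen_ball hc hd z (w.re : ℂ)
        (by
          refine Subset.trans ?_ hzw'
          rw [Complex.ofReal_re, Complex.ofReal_im]
          exact reProdIm_subset_iff.2 (prod_mono Subset.rfl hs1))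
        (by
          rw [Complex.ofReal_im]
          intro h
          rcases le_total z.im 0 with h1 | h1
          · rw [max_eq_right h1] at h; exact lt_irrefl _ h.2
          · rw [min_eq_right h1] at h; exact lt_irrefl _ h.1)
      have b2 := bd_zero_of_off F (ball c r) isOpen_ball hc hd (z.re : ℂ) w
        (by
          refine Subset.trans ?_ hzw'
          rw [Complex.ofReal_re, Complex.ofReal_im]
          exact reProdIm_subset_iff.2 (prod_mono Subset.rfl hs2))
        (by
          rw [Complex.ofReal_im]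
          intro h
          rcases le_total w.im 0 with h1 | h1
          · rw [max_eq_left h1] at h; exact lt_irrefl _ h.2
          · rw [min_eq_left h1] at h; exact lt_irrefl _ h.1)
      simp only [Complex.ofReal_re, Complex.ofReal_im] at b1 b2
      have hint : ∀ a : ℝ, a ∈ [[z.re, w.re]] → ∀ s t : ℝ, [[s, t]] ⊆ [[z.im, w.im]] →
          IntervalIntegrable (fun y : ℝ => F (a + y * I)) volume s t := by
        intro a ha s t hst
        apply ContinuousOn.intervalIntegrable
        apply hc.comp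
        · fun_prop
        · intro y hy
          apply hzw'
          rw [mem_reProdIm]
          simp only [add_re, ofReal_re, mul_re, I_re, mul_zero, ofReal_im, I_im, mul_one, sub_self,
            add_zero, add_im, mul_im, zero_add]
          exact ⟨ha, hst hy⟩
      have i1 := intervalIntegral.integral_add_adjacent_intervals
        (hint w.re right_mem_uIcc z.im 0 hs1) (hint w.re right_mem_uIcc 0 w.im hs2)
      have i2 := intervalIntegral.integral_add_adjacent_intervals
        (hint z.re left_mem_uIcc z.im 0 hs1) (hint z.re left_mem_uIcc 0 w.im hs2)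
      rw [← i1, ← i2]
      simp only [smul_eq_mul] at b1 b2 ⊢
      linear_combination b1 + b2
    · exact bd_zero_of_off F (ball c r) isOpen_ball hc hd z w hzw' h0
  exact (IsConservativeOn.isExactOn_ball hc hcons).differentiableOn isOpen_ball

theorem isOpen_Rec (c1 c2 η : ℝ) : IsOpen (Rec c1 c2 η) := by
  unfold Rec
  apply IsOpen.inter (isOpen_lt continuous_const Complex.continuous_re)
  apply IsOpen.inter (isOpen_lt Complex.continuous_re continuous_const)
  exact IsOpen.inter (isOpen_lt continuous_const Complex.continuous_im)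
    (isOpen_lt Complex.continuous_im continuous_const)

theorem isOpen_Rec2 (c1 c2 η : ℝ) : IsOpen (Rec2 c1 c2 η) := by
  unfold Rec2
  apply IsOpen.inter (isOpen_lt continuous_const Complex.continuous_re)
  exact IsOpen.inter (isOpen_lt Complex.continuous_re continuous_const)
    (isOpen_lt (continuous_abs.comp Complex.continuous_im) continuous_const)

theorem rec_of_rec2_pos {c1 c2 η : ℝ} {c : ℂ} (hc : c ∈ Rec2 c1 c2 η) (h : 0 < c.im) :
    c ∈ Rec c1 c2 η :=
  ⟨hc.1, hc.2.1, h, (abs_lt.1 hc.2.2).2⟩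

theorem rec_of_rec2_neg {c1 c2 η : ℝ} {c : ℂ} (hc : c ∈ Rec2 c1 c2 η) (h : c.im < 0) :
    (starRingEnd ℂ) c ∈ Rec c1 c2 η :=
  ⟨by simpa using hc.1, by simpa using hc.2.1, by simpa using h,
    by rw [Complex.conj_im]; linarith [(abs_lt.1 hc.2.2).1]⟩

theorem rec2_conj {c1 c2 η : ℝ} {c : ℂ} (hc : c ∈ Rec2 c1 c2 η) :
    (starRingEnd ℂ) c ∈ Rec2 c1 c2 η :=
  ⟨by simpa using hc.1, by simpa using hc.2.1, by simpa using hc.2.2⟩

theorem rec_ne_bot {c1 c2 η : ℝ} (hη : 0 < η) {x : ℝ} (hx : x ∈ Ioo c1 c2) :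
    (𝓝[Rec c1 c2 η] (x : ℂ)).NeBot := by
  have hseq : Tendsto (fun n : ℕ => (x : ℂ) + ((η * ((1:ℝ) / ((n:ℝ) + 2)) : ℝ) : ℂ) * I) atTop
      (𝓝[Rec c1 c2 η] (x : ℂ)) := by
    rw [tendsto_nhdsWithin_iff]
    constructor
    · have h1 : Tendsto (fun n : ℕ => (1:ℝ) / ((n:ℝ) + 2)) atTop (𝓝 0) := by
        have h2 := (tendsto_add_atTop_iff_nat 1).2
          (tendsto_one_div_add_atTop_nhds_zero_nat (𝕜 := ℝ))
        refine h2.congr ?_
        intro n
        push_cast
        ring_nf
      have h3 : Tendsto (fun n : ℕ => (((η * ((1:ℝ) / ((n:ℝ) + 2)) : ℝ)) : ℂ)) atTop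
          (𝓝 ((η * 0 : ℝ) : ℂ)) :=
        (Complex.continuous_ofReal.tendsto _).comp (h1.const_mul η)
      have h4 := (h3.mul_const I).const_add (x : ℂ)
      simpa using h4
    · filter_upwards with n
      have h0 : (0:ℝ) < 1 / ((n:ℝ) + 2) := by positivity
      have h1 : (1:ℝ) / ((n:ℝ) + 2) < 1 := by
        rw [div_lt_one (by positivity)]
        have : (0:ℝ) ≤ n := Nat.cast_nonneg n
        linarith
      refine ⟨?_, ?_, ?_, ?_⟩
      · simp only [add_re, ofReal_re, mul_re, I_re, mul_zero, ofReal_im, I_im, mul_one, sub_self,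
          add_zero]
        exact hx.1
      · simp only [add_re, ofReal_re, mul_re, I_re, mul_zero, ofReal_im, I_im, mul_one, sub_self,
          add_zero]
        exact hx.2
      · simp only [add_im, ofReal_im, mul_im, ofReal_re, I_im, mul_one, I_re, mul_zero, add_zero,
          zero_add]
        positivity
      · simp only [add_im, ofReal_im, mul_im, ofReal_re, I_im, mul_one, I_re, mul_zero, add_zero,
          zero_add]
        nlinarith
  exact hseq.neBot

theorem ft_refl : GRefl := by
  classical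
  intro f u c1 c2 η hc12 hη hf hlim
  obtain ⟨F, hF⟩ : ∃ F : ℂ → ℂ, F = fun c => if 0 < c.im then f c else
      if c.im = 0 then (u c.re : ℂ) else (starRingEnd ℂ) (f ((starRingEnd ℂ) c)) := ⟨_, rfl⟩
  have Fpos : ∀ c : ℂ, 0 < c.im → F c = f c := by
    intro c hc
    rw [hF]
    simp [hc]
  have Fzero : ∀ c : ℂ, c.im = 0 → F c = u c.re := by
    intro c hc
    rw [hF]
    simp [hc]
  have Fneg : ∀ c : ℂ, c.im < 0 → F c = (starRingEnd ℂ) (f ((starRingEnd ℂ) c)) := by
    intro c hc
    rw [hF]
    simp [not_lt.2 hc.le, hc.ne]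
  have hfat : ∀ c ∈ Rec c1 c2 η, DifferentiableAt ℂ f c := fun c hc =>
    (hf c hc).differentiableAt ((isOpen_Rec c1 c2 η).mem_nhds hc)
  -- differentiability off the axis
  have hdoff : ∀ c ∈ Rec2 c1 c2 η, c.im ≠ 0 → DifferentiableAt ℂ F c := by
    intro c hc hne
    rcases lt_or_gt_of_ne hne with h | h
    · have h1 : DifferentiableAt ℂ ((starRingEnd ℂ) ∘ f ∘ (starRingEnd ℂ)) c := by
        rw [differentiableAt_conj_conj_iff]
        exact hfat _ (rec_of_rec2_neg hc h)
      apply h1.congr_of_eventuallyEq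
      filter_upwards [(isOpen_lt Complex.continuous_im continuous_const).mem_nhds h] with c' hc'
      exact Fneg c' hc'
    · apply (hfat c (rec_of_rec2_pos hc h)).congr_of_eventuallyEq
      filter_upwards [(isOpen_lt continuous_const Complex.continuous_im).mem_nhds h] with c' hc'
      exact Fpos c' hc'
  -- continuity on the axis
  have hcax : ∀ x ∈ Ioo c1 c2, ContinuousAt F (x : ℂ) := by
    intro x hx
    rw [Metric.continuousAt_iff]
    intro ε hε
    have h1 := hlim x hx
    rw [Metric.tendsto_nhdsWithin_nhds] at h1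
    obtain ⟨δ, hδ, h2⟩ := h1 (ε / 2) (by positivity)
    have hxR : (x : ℂ) ∈ Rec2 c1 c2 η := ⟨by simpa using hx.1, by simpa using hx.2, by simpa using hη⟩
    obtain ⟨δ', hδ', h3⟩ := Metric.isOpen_iff.1 (isOpen_Rec2 c1 c2 η) _ hxR
    refine ⟨min δ δ', by positivity, ?_⟩
    intro c hc
    have hcδ : dist c x < δ := hc.trans_le (min_le_left _ _)
    have hcR : c ∈ Rec2 c1 c2 η := h3 (hc.trans_le (min_le_right _ _))
    have Fx : F x = u x := by rw [Fzero _ (Complex.ofReal_im x), Complex.ofReal_re]
    rw [Fx]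
    rcases lt_trichotomy c.im 0 with h | h | h
    · rw [Fneg c h]
      have h4 : dist ((starRingEnd ℂ) c) x < δ := by
        rw [← Complex.dist_conj_conj, Complex.conj_conj, Complex.conj_ofReal]
        exact hcδ
      have h5 := h2 (rec_of_rec2_neg hcR h) h4
      rw [← Complex.dist_conj_conj, Complex.conj_conj, Complex.conj_ofReal]
      linarith
    · rw [Fzero c h]
      have hcre : c = (c.re : ℂ) := by
        apply Complex.ext
        · simp
        · simp [h]
      have hx' : c.re ∈ Ioo c1 c2 := ⟨hcR.1, hcR.2.1⟩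
      have := rec_ne_bot (c1 := c1) (c2 := c2) hη hx'
      have h4 : Tendsto (fun z => dist (f z) (u x : ℂ)) (𝓝[Rec c1 c2 η] (c.re : ℂ))
          (𝓝 (dist (u c.re : ℂ) (u x : ℂ))) := (hlim _ hx').dist tendsto_const_nhds
      have h5 : dist (u c.re : ℂ) (u x : ℂ) ≤ ε / 2 := by
        apply le_of_tendsto h4
        have h6 : ∀ᶠ z in 𝓝[Rec c1 c2 η] (c.re : ℂ), z ∈ ball (x : ℂ) δ := by
          apply mem_nhdsWithin_of_mem_nhds
          apply isOpen_ball.mem_nhds
          rw [mem_ball, ← hcre]
          exact hcδ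
        filter_upwards [h6, self_mem_nhdsWithin] with z hz1 hz2
        exact (h2 hz2 hz1).le
      linarith
    · rw [Fpos c h]
      have := h2 (rec_of_rec2_pos hcR h) hcδ
      linarith
  have hcont : ContinuousOn F (Rec2 c1 c2 η) := by
    intro c hc
    apply ContinuousAt.continuousWithinAt
    by_cases h : c.im = 0
    · have hcre : c = (c.re : ℂ) := by
        apply Complex.ext
        · simp
        · simp [h]
      rw [hcre]
      exact hcax c.re ⟨hc.1, hc.2.1⟩
    · exact (hdoff c hc h).continuousAt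
  refine ⟨F, ?_, ?_, ?_, ?_⟩
  · intro c hc
    apply DifferentiableAt.differentiableWithinAt
    obtain ⟨δ, hδ, h3⟩ := Metric.isOpen_iff.1 (isOpen_Rec2 c1 c2 η) _ hc
    have := diffOn_ball_of_off F c δ (hcont.mono h3) (fun z hz hne => hdoff z (h3 hz) hne)
    exact (this c (mem_ball_self hδ)).differentiableAt (isOpen_ball.mem_nhds (mem_ball_self hδ))
  · intro c hc
    exact Fpos c hc.2.2.1
  · intro x _
    rw [Fzero _ (Complex.ofReal_im x), Complex.ofReal_re]
  · intro c hc
    rcases lt_trichotomy c.im 0 with h | h | h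
    · rw [Fneg c h, Fpos _ (by simpa using h), Complex.conj_conj]
    · rw [Fzero c h, Fzero _ (by simpa using h)]
      simp
    · rw [Fpos c h, Fneg _ (by simpa using h), Complex.conj_conj]

end Pool.Agent.Helper52.FT
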