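import Pool.Agent.Helper76.FT.GoalsB

/-!
# FT-WEIGHT: weighted Cauchy integral in the parameter
-/

set_option autoImplicit false

namespace Pool.Agent.Helper52.FT

open Complex Set Filter Topology Metric MeasureTheory
open Pool.Agent.Helper76.FT
open scoped Interval

theorem isOpen_Str (ρ : ℝ) : IsOpen (Str ρ) :=
  isOpen_lt (continuous_abs.comp Complex.continuous_im) continuous_const

/-- the hypotheses of `GWeight` -/
structure WH (U : ℂ → ℂ → ℂ) (x0 r a M : ℝ) (k : ℕ) : Prop where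
  hr : 0 < r
  ha : 0 < a
  hk : 1 ≤ k
  hU : ∀ x : ℝ, DifferentiableOn ℂ (fun c => U (x : ℂ) c) (ball (x0 : ℂ) (2 * r))
  hM : ∀ x : ℝ, ∀ c ∈ ball (x0 : ℂ) (2 * r), ‖U (x : ℂ) c‖ ≤ M
  hZ : ∀ c ∈ ball (x0 : ℂ) (2 * r), c.im ≠ 0 →
      DifferentiableOn ℂ (fun z => U z c) (Str (a * |c.im| ^ k)) ∧
      ∀ z ∈ Str (a * |c.im| ^ k), ‖U z c‖ ≤ M

theorem WH.M0 {U : ℂ → ℂ → ℂ} {x0 r a M : ℝ} {k : ℕ} (h : WH U x0 r a M k) : 0 ≤ M :=
  (norm_nonneg _).trans (h.hM 0 x0 (mem_ball_self (by linarith [h.hr])))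

theorem circ_mem {x0 r : ℝ} (hr : 0 < r) (θ : ℝ) : circleMap (x0 : ℂ) r θ ∈ ball (x0 : ℂ) (2 * r) := by
  rw [mem_ball, Complex.dist_eq, circleMap_sub_center, norm_circleMap_zero, abs_of_pos hr]
  linarith

theorem circ_im (x0 r θ : ℝ) : (circleMap (x0 : ℂ) r θ).im = r * Real.sin θ := by
  simp [circleMap, Complex.exp_ofReal_mul_I_im]

theorem circ_re (x0 r θ : ℝ) : (circleMap (x0 : ℂ) r θ).re = x0 + r * Real.cos θ := by
  simp [circleMap, Complex.exp_ofReal_mul_I_re]

theorem circ_G {x0 r : ℝ} (hr : 0 < r) (θ : ℝ) :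
    ‖(circleMap (x0 : ℂ) r θ - x0)^2 - (r : ℂ)^2‖ = 2 * r * |(circleMap (x0 : ℂ) r θ).im| := by
  have h : ‖(circleMap (x0 : ℂ) r θ - x0)^2 - (r : ℂ)^2‖^2
      = (2 * r * |(circleMap (x0 : ℂ) r θ).im|)^2 := by
    rw [← Complex.normSq_eq_norm_sq, Complex.normSq_apply, mul_pow, sq_abs]
    have e1 := circ_im x0 r θ
    have e2 := circ_re x0 r θ
    have e3 := Real.sin_sq_add_cos_sq θ
    have e4 : ((circleMap (x0 : ℂ) r θ - x0)^2 - (r : ℂ)^2).re
        = (r * Real.cos θ)^2 - (r * Real.sin θ)^2 - r^2 := by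
      simp only [pow_two, sub_re, mul_re, ofReal_re, ofReal_im, sub_im, e1, e2]
      ring
    have e5 : ((circleMap (x0 : ℂ) r θ - x0)^2 - (r : ℂ)^2).im
        = 2 * (r * Real.cos θ) * (r * Real.sin θ) := by
      simp only [pow_two, sub_im, mul_im, ofReal_re, ofReal_im, sub_re, e1, e2]
      ring
    rw [e4, e5, e1]
    have e6 : (Real.cos θ)^2 = 1 - (Real.sin θ)^2 := by linarith
    have e7 : (r * Real.cos θ)^2 - (r * Real.sin θ)^2 - r^2 = - 2 * r^2 * (Real.sin θ)^2 := by
      rw [mul_pow, mul_pow, e6]; ring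
    rw [e7]
    linear_combination 4 * r^4 * (Real.sin θ)^2 * e6
  exact (sq_eq_sq₀ (norm_nonneg _) (by positivity)).1 h

/-- the weighted integrand -/
noncomputable def HH (U : ℂ → ℂ → ℂ) (x0 r : ℝ) (k n j : ℕ) (x θ : ℝ) : ℂ :=
  iteratedDeriv j (fun z => U z (circleMap (x0 : ℂ) r θ)) (x : ℂ) *
    ((circleMap (x0 : ℂ) r θ - x0)^2 - (r : ℂ)^2) ^ (k * n)

theorem HH_zero {U : ℂ → ℂ → ℂ} {x0 r a M : ℝ} {k : ℕ} (h : WH U x0 r a M k) (n j : ℕ)
    (hn : 1 ≤ n) (x θ : ℝ) (him : (circleMap (x0 : ℂ) r θ).im = 0) : HH U x0 r k n j x θ = 0 := by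
  have h1 := circ_G (x0 := x0) h.hr θ
  rw [him, abs_zero, mul_zero, norm_eq_zero] at h1
  unfold HH
  have hkn : k * n ≠ 0 := Nat.mul_ne_zero (by have := h.hk; omega) (by omega)
  rw [h1, zero_pow hkn, mul_zero]

theorem HH_deriv {U : ℂ → ℂ → ℂ} {x0 r a M : ℝ} {k : ℕ} (h : WH U x0 r a M k) (n j : ℕ)
    (hn : 1 ≤ n) (x θ : ℝ) :
    HasDerivAt (fun y : ℝ => HH U x0 r k n j y θ) (HH U x0 r k n (j + 1) x θ) x := by
  by_cases him : (circleMap (x0 : ℂ) r θ).im = 0
  · have e1 : (fun y : ℝ => HH U x0 r k n j y θ) = fun _ => 0 := by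
      funext y
      exact HH_zero h n j hn y θ him
    rw [e1, HH_zero h n (j + 1) hn x θ him]
    exact hasDerivAt_const x 0
  · have hpos : 0 < a * |(circleMap (x0 : ℂ) r θ).im| ^ k :=
      mul_pos h.ha (pow_pos (abs_pos.2 him) k)
    have hd := (h.hZ _ (circ_mem h.hr θ) him).1
    have han := hd.analyticOnNhd (isOpen_Str _)
    have hx : (x : ℂ) ∈ Str (a * |(circleMap (x0 : ℂ) r θ).im| ^ k) := by
      simp only [Str, mem_ofPred_eq, Complex.ofReal_im, abs_zero]
      exact hpos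
    have h1 : DifferentiableAt ℂ (iteratedDeriv j (fun z => U z (circleMap (x0 : ℂ) r θ))) x := by
      have := (han.iterated_deriv j) _ hx
      rw [← iteratedDeriv_eq_iterate] at this
      exact this.differentiableAt
    have h2 := h1.hasDerivAt
    rw [← iteratedDeriv_succ] at h2
    exact h2.comp_ofReal.mul_const _

theorem HH_meas {U : ℂ → ℂ → ℂ} {x0 r a M : ℝ} {k : ℕ} (h : WH U x0 r a M k) (n : ℕ)
    (hn : 1 ≤ n) (j : ℕ) : ∀ x : ℝ, StronglyMeasurable (fun θ => HH U x0 r k n j x θ) := by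
  induction j with
  | zero =>
    intro x
    apply Continuous.stronglyMeasurable
    unfold HH
    simp only [iteratedDeriv_zero]
    apply Continuous.mul
    · exact (h.hU x).continuousOn.comp_continuous (continuous_circleMap _ _) (circ_mem h.hr)
    · have := continuous_circleMap (x0 : ℂ) r
      fun_prop
  | succ j ih =>
    intro x
    have hseq : Tendsto (fun m : ℕ => (1:ℝ) / ((m:ℝ) + 1)) atTop (𝓝[≠] 0) := by
      rw [tendsto_nhdsWithin_iff]
      refine ⟨tendsto_one_div_add_atTop_nhds_zero_nat, ?_⟩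
      filter_upwards with m
      have : (0:ℝ) < 1 / ((m:ℝ) + 1) := by positivity
      exact this.ne'
    apply stronglyMeasurable_of_tendsto atTop
      (f := fun (m : ℕ) θ => ((1:ℝ) / ((m:ℝ) + 1))⁻¹ •
        (HH U x0 r k n j (x + (1:ℝ) / ((m:ℝ) + 1)) θ - HH U x0 r k n j x θ))
    · intro m
      exact ((ih _).sub (ih _)).const_smul (((1:ℝ) / ((m:ℝ) + 1))⁻¹)
    · rw [tendsto_pi_nhds]
      intro θ
      exact (HH_deriv h n j hn x θ).tendsto_slope_zero.comp hseq

theorem HH_bound {U : ℂ → ℂ → ℂ} {x0 r a M : ℝ} {k : ℕ} (h : WH U x0 r a M k) (n j : ℕ)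
    (hn : 1 ≤ n) (hjn : j ≤ n) (x θ : ℝ) :
    ‖HH U x0 r k n j x θ‖ ≤ j.factorial * M * (2 / a)^j * (2 * r)^(k * n) * r^(k * (n - j)) := by
  have hM0 := h.M0
  have hr := h.hr
  have ha := h.ha
  by_cases him : (circleMap (x0 : ℂ) r θ).im = 0
  · rw [HH_zero h n j hn x θ him, norm_zero]
    positivity
  · obtain ⟨s, hs⟩ : ∃ s : ℝ, s = |(circleMap (x0 : ℂ) r θ).im| := ⟨_, rfl⟩
    have hs0 : 0 < s := by rw [hs]; exact abs_pos.2 him
    have hsr : s ≤ r := by
      rw [hs, circ_im, abs_mul, abs_of_pos hr]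
      have := Real.abs_sin_le_one θ
      nlinarith
    obtain ⟨hd, hb⟩ := h.hZ _ (circ_mem hr θ) him
    rw [← hs] at hd hb
    have hρ : 0 < a * s^k := by positivity
    have hsub : closedBall (x : ℂ) (a * s^k / 2) ⊆ Str (a * s^k) := by
      intro z hz
      rw [mem_closedBall, Complex.dist_eq] at hz
      have h1 := Complex.abs_im_le_norm (z - x)
      simp only [Complex.sub_im, Complex.ofReal_im, sub_zero] at h1
      simp only [Str, mem_ofPred_eq]
      linarith
    have h1 : ‖iteratedDeriv j (fun z => U z (circleMap (x0 : ℂ) r θ)) (x : ℂ)‖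
        ≤ j.factorial * M / (a * s^k / 2)^j := by
      apply norm_iteratedDeriv_le_of_forall_mem_sphere_norm_le j (by positivity)
      · apply DifferentiableOn.diffContOnCl
        rw [closure_ball _ (by positivity)]
        exact hd.mono hsub
      · intro z hz
        exact hb z (hsub (sphere_subset_closedBall hz))
    unfold HH
    rw [norm_mul, norm_pow, circ_G hr θ, ← hs]
    have h2 : (j.factorial * M / (a * s^k / 2)^j) * (2 * r * s)^(k * n)
        = j.factorial * M * (2 / a)^j * (2 * r)^(k * n) * s^(k * (n - j)) := by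
      have e1 : (2 * r * s)^(k * n) = (2 * r)^(k * n) * (s^(k * (n - j)) * (s^k)^j) := by
        rw [mul_pow, ← pow_mul, ← pow_add, ← Nat.mul_add, Nat.sub_add_cancel hjn]
      rw [e1, div_pow, mul_pow, div_pow]
      have hsk : (s^k)^j ≠ 0 := by positivity
      have haj : a^j ≠ 0 := by positivity
      field_simp
    calc ‖iteratedDeriv j (fun z => U z (circleMap (x0 : ℂ) r θ)) (x : ℂ)‖ * (2 * r * s)^(k * n)
        ≤ (j.factorial * M / (a * s^k / 2)^j) * (2 * r * s)^(k * n) := by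
          apply mul_le_mul_of_nonneg_right h1
          positivity
      _ = j.factorial * M * (2 / a)^j * (2 * r)^(k * n) * s^(k * (n - j)) := h2
      _ ≤ j.factorial * M * (2 / a)^j * (2 * r)^(k * n) * r^(k * (n - j)) := by
          apply mul_le_mul_of_nonneg_left _ (by positivity)
          exact pow_le_pow_left₀ hs0.le hsr _

theorem HH_int {U : ℂ → ℂ → ℂ} {x0 r a M : ℝ} {k : ℕ} (h : WH U x0 r a M k) (n j : ℕ)
    (hn : 1 ≤ n) (hjn : j ≤ n) (x : ℝ) :
    IntervalIntegrable (fun θ => HH U x0 r k n j x θ) volume 0 (2 * Real.pi) := by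
  have hc : IntervalIntegrable (fun _ : ℝ => j.factorial * M * (2 / a)^j * (2 * r)^(k * n) *
      r^(k * (n - j))) volume 0 (2 * Real.pi) := intervalIntegrable_const
  apply hc.mono_fun
  · exact (HH_meas h n hn j x).aestronglyMeasurable
  · filter_upwards with θ
    exact (HH_bound h n j hn hjn x θ).trans (le_abs_self _)

theorem HH_intDeriv {U : ℂ → ℂ → ℂ} {x0 r a M : ℝ} {k : ℕ} (h : WH U x0 r a M k) (n j : ℕ)
    (hn : 1 ≤ n) (hjn : j < n) (x : ℝ) :
    HasDerivAt (fun y : ℝ => ∫ θ in (0:ℝ)..(2 * Real.pi), HH U x0 r k n j y θ)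
      (∫ θ in (0:ℝ)..(2 * Real.pi), HH U x0 r k n (j + 1) x θ) x := by
  have := intervalIntegral.hasDerivAt_integral_of_dominated_loc_of_deriv_le (𝕜 := ℝ)
    (μ := volume) (a := 0) (b := 2 * Real.pi)
    (F := fun y θ => HH U x0 r k n j y θ) (F' := fun y θ => HH U x0 r k n (j + 1) y θ) (x₀ := x)
    (s := univ)
    (bound := fun _ => (j + 1).factorial * M * (2 / a)^(j + 1) * (2 * r)^(k * n) *
      r^(k * (n - (j + 1)))) univ_mem
    (by
      filter_upwards with y
      exact (HH_meas h n hn j y).aestronglyMeasurable)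
    (HH_int h n j hn hjn.le x)
    ((HH_meas h n hn (j + 1) x).aestronglyMeasurable)
    (by
      filter_upwards with θ _ y _
      exact HH_bound h n (j + 1) hn hjn y θ)
    intervalIntegrable_const
    (by
      filter_upwards with θ _ y _
      exact HH_deriv h n j hn y θ)
  exact this.2

theorem HH_mean {U : ℂ → ℂ → ℂ} {x0 r a M : ℝ} {k : ℕ} (h : WH U x0 r a M k) (n : ℕ) (x : ℝ) :
    (∫ θ in (0:ℝ)..(2 * Real.pi), HH U x0 r k n 0 x θ)
      = (2 * Real.pi) * (-(r : ℂ)^2)^(k * n) * U x x0 := by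
  have hr := h.hr
  have hd : DiffContOnCl ℂ (fun c : ℂ => U x c * ((c - x0)^2 - (r : ℂ)^2)^(k * n))
      (ball (x0 : ℂ) |r|) := by
    rw [abs_of_pos hr]
    apply DifferentiableOn.diffContOnCl
    rw [closure_ball _ hr.ne']
    apply DifferentiableOn.mul
    · apply (h.hU x).mono
      exact closedBall_subset_ball (by linarith)
    · fun_prop
  have h1 := hd.circleAverage
  rw [Real.circleAverage_def] at h1
  simp only [sub_self] at h1
  have h2 : (∫ θ in (0:ℝ)..(2 * Real.pi), HH U x0 r k n 0 x θ)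
      = (2 * Real.pi) • ((2 * Real.pi)⁻¹ • ∫ θ in (0:ℝ)..(2 * Real.pi),
        U x (circleMap (x0 : ℂ) r θ) * ((circleMap (x0 : ℂ) r θ - x0)^2 - (r : ℂ)^2)^(k * n)) := by
    rw [smul_inv_smul₀ (by positivity)]
    simp only [HH, iteratedDeriv_zero]
  rw [h2, h1]
  simp only [Complex.real_smul]
  push_cast
  ring

theorem ft_weight : GFac → GWeight := by
  intro hfac U x0 r a M k hr ha hk hU hM hZ _
  have h : WH U x0 r a M k := ⟨hr, ha, hk, hU, hM, hZ⟩
  have hM0 := h.M0
  obtain ⟨u, hu⟩ : ∃ u : ℝ → ℂ, u = fun x : ℝ => U (x : ℂ) (x0 : ℂ) := ⟨_, rfl⟩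
  obtain ⟨B, hB⟩ : ∃ B : ℕ → ℕ → ℝ → ℂ, B = fun n j x => ((2 * Real.pi) * (-(r : ℂ)^2)^(k * n))⁻¹ *
    ∫ θ in (0:ℝ)..(2 * Real.pi), HH U x0 r k n j x θ := ⟨_, rfl⟩
  have hr2 : ∀ n : ℕ, ((2 * Real.pi) * (-(r : ℂ)^2)^(k * n)) ≠ 0 := by
    intro n
    have h1 : (r : ℂ) ≠ 0 := by exact_mod_cast hr.ne'
    have h2 : (Real.pi : ℂ) ≠ 0 := by exact_mod_cast Real.pi_ne_zero
    exact mul_ne_zero (mul_ne_zero two_ne_zero h2) (pow_ne_zero _ (neg_ne_zero.2 (pow_ne_zero _ h1)))
  have hB0 : ∀ n, B n 0 = u := by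
    intro n
    funext x
    rw [hB, hu]
    simp only
    rw [HH_mean h n x, ← mul_assoc, inv_mul_cancel₀ (hr2 n), one_mul]
  have hBd : ∀ n j, 1 ≤ n → j < n → ∀ x, HasDerivAt (B n j) (B n (j + 1) x) x := by
    intro n j hn hjn x
    rw [hB]
    exact (HH_intDeriv h n j hn hjn x).const_mul _
  have hiter : ∀ n, 1 ≤ n → ∀ j, j ≤ n → iteratedDeriv j u = B n j := by
    intro n hn j
    induction j with
    | zero =>
      intro _
      rw [iteratedDeriv_zero, hB0 n]
    | succ j ih =>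
      intro hj
      rw [iteratedDeriv_succ, ih (by omega)]
      funext x
      exact (hBd n j hn (by omega) x).deriv
  have hgoal := hfac u (fun n => iteratedDeriv n u) (M + 2 / a * (2 / r)^k) iteratedDeriv_zero
    (by
      intro n x
      rw [hiter (n + 1) (by omega) n (by omega), hiter (n + 1) (by omega) (n + 1) le_rfl]
      exact hBd (n + 1) n (by omega) (by omega) x)
    (by
      intro n x
      have hQ : 0 ≤ 2 / a * (2 / r)^k := by positivity
      rcases Nat.eq_zero_or_pos n with hn | hn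
      · subst hn
        rw [iteratedDeriv_zero]
        simp only [zero_add, pow_one, Nat.factorial_zero, Nat.cast_one, mul_one]
        have h1 : ‖u x‖ ≤ M := by
          rw [hu]
          exact hM x x0 (mem_ball_self (by linarith))
        linarith
      · rw [hiter n hn n le_rfl, hB]
        simp only
        rw [norm_mul, norm_inv]
        have h1 : ‖∫ θ in (0:ℝ)..(2 * Real.pi), HH U x0 r k n n x θ‖ ≤
            (n.factorial * M * (2 / a)^n * (2 * r)^(k * n) * r^(k * (n - n))) *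
              |2 * Real.pi - 0| := by
          apply intervalIntegral.norm_integral_le_of_norm_le_const
          intro θ _
          exact HH_bound h n n hn le_rfl x θ
        have h2 : ‖((2 * Real.pi) * (-(r : ℂ)^2)^(k * n))‖ = 2 * Real.pi * (r^2)^(k * n) := by
          rw [norm_mul, norm_pow, norm_neg, norm_pow, norm_mul]
          simp [abs_of_pos hr, abs_of_pos Real.pi_pos]
        rw [h2]
        have hpi := Real.pi_pos
        rw [sub_zero, abs_of_pos (by positivity), Nat.sub_self, Nat.mul_zero, pow_zero, mul_one] at h1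
        have h3 : (2 * Real.pi * (r^2)^(k * n))⁻¹ *
            ((n.factorial * M * (2 / a)^n * (2 * r)^(k * n)) * (2 * Real.pi))
            = M * (2 / a * (2 / r)^k)^n * n.factorial := by
          have e1 : (2 * r)^(k * n) = (2 / r)^(k * n) * (r^2)^(k * n) := by
            rw [← mul_pow]
            congr 1
            field_simp
          have e2 : ((2 / r)^k)^n = (2 / r)^(k * n) := (pow_mul _ _ _).symm
          rw [e1, mul_pow, e2]
          have : (r^2)^(k * n) ≠ 0 := by positivity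
          field_simp
        calc (2 * Real.pi * (r^2)^(k * n))⁻¹ * ‖∫ θ in (0:ℝ)..(2 * Real.pi), HH U x0 r k n n x θ‖
            ≤ (2 * Real.pi * (r^2)^(k * n))⁻¹ *
              ((n.factorial * M * (2 / a)^n * (2 * r)^(k * n)) * (2 * Real.pi)) := by
              apply mul_le_mul_of_nonneg_left h1
              positivity
          _ = M * (2 / a * (2 / r)^k)^n * n.factorial := h3
          _ ≤ (M + 2 / a * (2 / r)^k)^(n + 1) * n.factorial := by
              apply mul_le_mul_of_nonneg_right _ (by positivity)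
              rw [pow_succ']
              apply mul_le_mul
              · linarith
              · apply pow_le_pow_left₀ hQ
                linarith
              · positivity
              · positivity)
  rw [hu] at hgoal
  exact hgoal

end Pool.Agent.Helper52.FT
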