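import Pool.Agent.Helper76.FT.GoalsG
import Pool.Agent.Helper52.FT.Weight

/-!
# FT-STRIP: uniform strips
-/

set_option autoImplicit false

namespace Pool.Agent.Helper52.FT

open Complex Set Filter Topology
open Pool.Agent.Helper76.FT

/-- facts on `XF`, `OmF` for one torus -/
structure XO (S : Sys) (w : ℂ → ℝ → ℂ) (h a c0 C0 : ℝ) : Prop where
  h0 : 0 < h
  h1 : h ≤ 1
  a0 : 0 < a
  a1 : a < 1 / 2
  c00 : 0 < c0
  C00 : 0 < C0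
  im : ∀ t₀ ∈ Icc (0:ℝ) 1, ∀ z : ℝ × ℝ, -1 ≤ z.2 → z.2 < 2 →
    c0 * |z.2 - t₀| * h ≤ |(XF S w t₀ z).im|
  dst : ∀ t₀ ∈ Icc (0:ℝ) 1, ∀ z : ℝ × ℝ, -1 ≤ z.2 → z.2 < 2 →
    ‖XF S w t₀ z - z.1‖ ≤ C0 * |z.2 - t₀|
  om : ∀ z : ℝ × ℝ, -1 ≤ z.2 → z.2 < 2 → ‖OmF S w z‖ ≤ C0
  bil : ∀ t₀ ∈ Icc (0:ℝ) 1, ∀ (x : ℝ) (z z' : ℝ × ℝ), |z.1 - x| ≤ a * h ^ 3 →
      |z.2 - t₀| ≤ a * h ^ 3 → |z'.1 - x| ≤ a * h ^ 3 → |z'.2 - t₀| ≤ a * h ^ 3 →
      a * h * ‖z - z'‖ ≤ ‖XF S w t₀ z - XF S w t₀ z'‖ ∧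
      a * h ^ 2 * ‖OmF S w z - OmF S w z'‖ ≤ ‖z - z'‖
  cont : ∀ t₀ ∈ Icc (0:ℝ) 1, ∀ z : ℝ × ℝ, -1 < z.2 → z.2 < 2 → ContinuousAt (XF S w t₀) z
  opn : ∀ t₀ ∈ Icc (0:ℝ) 1, ∀ z : ℝ × ℝ, -1 < z.2 → z.2 < 2 →
    (∀ᶠ z' in 𝓝 z, XF S w t₀ z' = XF S w t₀ z) ∨
      𝓝 (XF S w t₀ z) ≤ Filter.map (XF S w t₀) (𝓝 z)

/-- the radius conditions -/
structure RC (h a c0 C0 ρ : ℝ) : Prop where
  r0 : 0 < ρ
  r1 : ρ ≤ c0 * h * (a * h ^ 3 / 2)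
  r2 : C0 * ρ ≤ c0 * h * (a * h ^ 3 / 2)
  r3 : ρ ≤ a * h ^ 3 / 2

theorem XO.A0 {S : Sys} {w : ℂ → ℝ → ℂ} {h a c0 C0 : ℝ} (H : XO S w h a c0 C0) :
    0 < a * h ^ 3 ∧ a * h ^ 3 < 1 / 2 := by
  have h0 := H.h0
  have a0 := H.a0
  refine ⟨by positivity, ?_⟩
  have h3 : h ^ 3 ≤ 1 := pow_le_one₀ h0.le H.h1
  nlinarith [H.a1]

theorem XO.apriori {S : Sys} {w : ℂ → ℝ → ℂ} {h a c0 C0 ρ : ℝ} (H : XO S w h a c0 C0)
    (R : RC h a c0 C0 ρ) {t₀ : ℝ} (ht : t₀ ∈ Icc (0:ℝ) 1) {z : ℝ × ℝ} (hz1 : -1 ≤ z.2)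
    (hz2 : z.2 < 2) (hζ : |(XF S w t₀ z).im| < ρ) :
    |z.2 - t₀| < a * h ^ 3 / 2 ∧ |z.1 - (XF S w t₀ z).re| < a * h ^ 3 / 2 := by
  have h1 := H.im t₀ ht z hz1 hz2
  have hch : 0 < c0 * h := mul_pos H.c00 H.h0
  have h2 : |z.2 - t₀| * (c0 * h) < ρ := by nlinarith
  have h3 : |z.2 - t₀| < a * h ^ 3 / 2 := by
    have : |z.2 - t₀| * (c0 * h) < (a * h ^ 3 / 2) * (c0 * h) := by nlinarith [R.r1]
    exact lt_of_mul_lt_mul_right this hch.le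
  refine ⟨h3, ?_⟩
  have h4 := H.dst t₀ ht z hz1 hz2
  have h5 : |z.1 - (XF S w t₀ z).re| ≤ ‖XF S w t₀ z - z.1‖ := by
    have := Complex.abs_re_le_norm (XF S w t₀ z - z.1)
    simp only [Complex.sub_re, Complex.ofReal_re] at this
    rwa [abs_sub_comm] at this
  have h6 : C0 * |z.2 - t₀| < a * h ^ 3 / 2 := by
    have e1 : C0 * (|z.2 - t₀| * (c0 * h)) < C0 * ρ := mul_lt_mul_of_pos_left h2 H.C00
    have : (C0 * |z.2 - t₀|) * (c0 * h) < (a * h ^ 3 / 2) * (c0 * h) := by nlinarith [R.r2]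
    exact lt_of_mul_lt_mul_right this hch.le
  linarith

theorem XO.unique {S : Sys} {w : ℂ → ℝ → ℂ} {h a c0 C0 ρ : ℝ} (H : XO S w h a c0 C0)
    (R : RC h a c0 C0 ρ) {t₀ : ℝ} (ht : t₀ ∈ Icc (0:ℝ) 1) {z z' : ℝ × ℝ} (hz1 : -1 ≤ z.2)
    (hz2 : z.2 < 2) (hz1' : -1 ≤ z'.2) (hz2' : z'.2 < 2) (hζ : |(XF S w t₀ z).im| < ρ)
    (he : XF S w t₀ z = XF S w t₀ z') : z = z' := by
  have hA := H.A0
  obtain ⟨e1, e2⟩ := H.apriori R ht hz1 hz2 hζ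
  obtain ⟨e3, e4⟩ := H.apriori R ht hz1' hz2' (he ▸ hζ)
  have h1 := (H.bil t₀ ht (XF S w t₀ z).re z z' (by linarith) (by linarith)
    (by rw [he]; linarith) (by linarith)).1
  rw [he, sub_self, norm_zero] at h1
  have h2 : 0 < a * h := mul_pos H.a0 H.h0
  have h3 : ‖z - z'‖ ≤ 0 := by
    by_contra hcon
    push Not at hcon
    have := mul_pos h2 hcon
    linarith
  exact sub_eq_zero.1 (norm_le_zero_iff.1 h3)

theorem XF_self (S : Sys) (w : ℂ → ℝ → ℂ) (x t : ℝ) (ht : t ∈ Icc (0:ℝ) 1) :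
    XF S w t (x, t) = x := by
  unfold XF
  rcases lt_or_eq_of_le ht.2 with h | h
  · simp [not_lt.2 ht.1, h]
  · subst h
    simp

theorem XO.exist {S : Sys} {w : ℂ → ℝ → ℂ} {h a c0 C0 ρ : ℝ} (H : XO S w h a c0 C0)
    (R : RC h a c0 C0 ρ) {t₀ : ℝ} (ht : t₀ ∈ Icc (0:ℝ) 1) {ζ : ℂ} (hζ : |ζ.im| < ρ) :
    ∃ z : ℝ × ℝ, -1 < z.2 ∧ z.2 < 2 ∧ XF S w t₀ z = ζ := by
  obtain ⟨hA0, hA1⟩ := H.A0
  obtain ⟨A, hA⟩ : ∃ A : ℝ, A = a * h ^ 3 := ⟨_, rfl⟩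
  rw [← hA] at hA0 hA1
  obtain ⟨B, hB⟩ : ∃ B : Set (ℝ × ℝ), B = Metric.closedBall (ζ.re, t₀) A := ⟨_, rfl⟩
  have hBmem : ∀ z ∈ B, |z.1 - ζ.re| ≤ A ∧ |z.2 - t₀| ≤ A := by
    intro z hz
    rw [hB, Metric.mem_closedBall, dist_eq_norm] at hz
    exact ⟨(norm_fst_le (z - (ζ.re, t₀))).trans hz, (norm_snd_le (z - (ζ.re, t₀))).trans hz⟩
  have hB2 : ∀ z ∈ B, -1 < z.2 ∧ z.2 < 2 := by
    intro z hz
    have := (abs_le.1 (hBmem z hz).2)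
    have h1 := ht.1
    have h2 := ht.2
    constructor <;> linarith
  have hcomp : IsCompact (XF S w t₀ '' B) := by
    apply IsCompact.image_of_continuousOn
    · rw [hB]; exact isCompact_closedBall _ _
    · intro z hz
      exact (H.cont t₀ ht z (hB2 z hz).1 (hB2 z hz).2).continuousWithinAt
  have hcl : IsOpen (XF S w t₀ '' B)ᶜ := hcomp.isClosed.isOpen_compl
  have hxB : ((ζ.re, t₀) : ℝ × ℝ) ∈ B := by rw [hB]; exact Metric.mem_closedBall_self hA0.le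
  have hx0 : XF S w t₀ (ζ.re, t₀) = (ζ.re : ℂ) := XF_self S w ζ.re t₀ ht
  -- points of the ball in the image are interior points of the image
  have hint : ∀ z ∈ B, XF S w t₀ z ∈ Metric.ball (ζ.re : ℂ) ρ →
      XF S w t₀ z ∈ interior (XF S w t₀ '' B) := by
    intro z hz hzb
    obtain ⟨hz1, hz2⟩ := hB2 z hz
    rw [Metric.mem_ball, Complex.dist_eq] at hzb
    have him : |(XF S w t₀ z).im| < ρ := by
      have := Complex.abs_im_le_norm (XF S w t₀ z - (ζ.re : ℂ))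
      simp only [Complex.sub_im, Complex.ofReal_im, sub_zero] at this
      linarith
    have hre : |(XF S w t₀ z).re - ζ.re| < ρ := by
      have := Complex.abs_re_le_norm (XF S w t₀ z - (ζ.re : ℂ))
      simp only [Complex.sub_re, Complex.ofReal_re] at this
      linarith
    obtain ⟨e1, e2⟩ := H.apriori R ht hz1.le hz2 him
    rw [← hA] at e1 e2
    have e3 : |z.1 - ζ.re| < A := by
      have := abs_sub_le z.1 (XF S w t₀ z).re ζ.re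
      have := R.r3
      rw [← hA] at this
      linarith
    have hzn : B ∈ 𝓝 z := by
      rw [hB]
      apply Metric.closedBall_mem_nhds_of_mem
      rw [Metric.mem_ball, dist_eq_norm]
      rw [Prod.norm_def]
      apply max_lt
      · exact e3
      · change |z.2 - t₀| < A
        linarith
    rcases H.opn t₀ ht z hz1 hz2 with hloc | hop
    · exfalso
      -- a second point near z with the same image
      have h1 : ∀ᶠ z' in 𝓝 z, z' ∈ B ∧ XF S w t₀ z' = XF S w t₀ z := Filter.Eventually.and hzn hloc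
      obtain ⟨ε, hε, h2⟩ := Metric.eventually_nhds_iff.1 h1
      have h3 : dist ((z.1 + ε / 2, z.2) : ℝ × ℝ) z < ε := by
        rw [dist_eq_norm, Prod.norm_def]
        apply max_lt
        · simp [abs_of_pos hε, hε]
        · simp [hε]
      obtain ⟨h4, h5⟩ := h2 h3
      have h6 := H.unique R ht hz1.le hz2 (hB2 _ h4).1.le (hB2 _ h4).2 him h5.symm
      have h7 := congrArg Prod.fst h6
      simp only at h7
      linarith
    · rw [mem_interior_iff_mem_nhds]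
      apply hop
      rw [Filter.mem_map]
      filter_upwards [hzn] with z' hz'
      exact mem_image_of_mem _ hz'
  have hsub : Metric.ball (ζ.re : ℂ) ρ ⊆ interior (XF S w t₀ '' B) := by
    apply IsPreconnected.subset_left_of_subset_union isOpen_interior hcl
    · apply disjoint_compl_right_iff_subset.2 interior_subset
    · intro y hy
      by_cases hyi : y ∈ XF S w t₀ '' B
      · obtain ⟨z, hz, rfl⟩ := hyi
        exact Or.inl (hint z hz hy)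
      · exact Or.inr hyi
    · refine ⟨(ζ.re : ℂ), Metric.mem_ball_self R.r0, ?_⟩
      have := hint _ hxB (by rw [hx0]; exact Metric.mem_ball_self R.r0)
      rwa [hx0] at this
    · exact (convex_ball _ _).isPreconnected
  have hζb : ζ ∈ Metric.ball (ζ.re : ℂ) ρ := by
    rw [Metric.mem_ball, Complex.dist_eq]
    have : ζ - (ζ.re : ℂ) = (ζ.im : ℂ) * I := by
      apply Complex.ext <;> simp
    rw [this, norm_mul, Complex.norm_I, mul_one, Complex.norm_real, Real.norm_eq_abs]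
    exact hζ
  obtain ⟨z, hz, hze⟩ := interior_subset (hsub hζb)
  exact ⟨z, (hB2 z hz).1, (hB2 z hz).2, hze⟩

open Classical in
/-- the point `z*` -/
noncomputable def zst (S : Sys) (w : ℂ → ℝ → ℂ) (ζ : ℂ) (t : ℝ) : ℝ × ℝ :=
  if h : ∃ z : ℝ × ℝ, -1 < z.2 ∧ z.2 < 2 ∧ XF S w t z = ζ then h.choose else (0, 0)

theorem zst_spec {S : Sys} {w : ℂ → ℝ → ℂ} {h a c0 C0 ρ : ℝ} (H : XO S w h a c0 C0)
    (R : RC h a c0 C0 ρ) {t : ℝ} (ht : t ∈ Icc (0:ℝ) 1) {ζ : ℂ} (hζ : ζ ∈ Str ρ) :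
    -1 < (zst S w ζ t).2 ∧ (zst S w ζ t).2 < 2 ∧ XF S w t (zst S w ζ t) = ζ := by
  have he := H.exist R ht hζ
  unfold zst
  rw [dif_pos he]
  exact he.choose_spec

theorem zst_eq {S : Sys} {w : ℂ → ℝ → ℂ} {h a c0 C0 ρ : ℝ} (H : XO S w h a c0 C0)
    (R : RC h a c0 C0 ρ) {t : ℝ} (ht : t ∈ Icc (0:ℝ) 1) {ζ : ℂ} (hζ : ζ ∈ Str ρ) {z : ℝ × ℝ}
    (hz1 : -1 ≤ z.2) (hz2 : z.2 < 2) (hz : XF S w t z = ζ) : zst S w ζ t = z := by
  obtain ⟨h1, h2, h3⟩ := zst_spec H R ht hζ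
  have hζ' : |ζ.im| < ρ := hζ
  exact H.unique R ht h1.le h2 hz1 hz2 (by rw [h3]; exact hζ') (by rw [h3, hz])

theorem zst_near {S : Sys} {w : ℂ → ℝ → ℂ} {h a c0 C0 ρ : ℝ} (H : XO S w h a c0 C0)
    (R : RC h a c0 C0 ρ) {t : ℝ} (ht : t ∈ Icc (0:ℝ) 1) {ζ : ℂ} (hζ : ζ ∈ Str ρ) :
    |(zst S w ζ t).2 - t| < a * h ^ 3 / 2 ∧ |(zst S w ζ t).1 - ζ.re| < a * h ^ 3 / 2 := by
  obtain ⟨h1, h2, h3⟩ := zst_spec H R ht hζ
  have hζ' : |ζ.im| < ρ := hζ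
  have := H.apriori R ht h1.le h2 (by rw [h3]; exact hζ')
  rwa [h3] at this

/-- changing the time in `XF` -/
theorem XF_time (S : Sys) (w : ℂ → ℝ → ℂ) (s t : ℝ) (z : ℝ × ℝ) :
    XF S w s z = XF S w t z + (s - t) * OmF S w z := by
  unfold XF
  split_ifs with h1 h2
  · ring
  · have : OmF S w z = wt w z := by
      unfold OmF
      rw [if_neg h1, if_pos h2]
    rw [this]
    ring
  · ring

/-- the extended torus -/
noncomputable def wx (S : Sys) (w : ℂ → ℝ → ℂ) (ζ : ℂ) (t : ℝ) : ℂ := OmF S w (zst S w ζ t)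

/-- local Lipschitz estimate -/
theorem wx_lip {S : Sys} {w : ℂ → ℝ → ℂ} {h a c0 C0 ρ : ℝ} (H : XO S w h a c0 C0)
    (R : RC h a c0 C0 ρ) {t t' : ℝ} (ht : t ∈ Icc (0:ℝ) 1) (ht' : t' ∈ Icc (0:ℝ) 1) {ζ ζ' : ℂ}
    (hζ : ζ ∈ Str ρ) (hζ' : ζ' ∈ Str ρ) (h1 : |t' - t| ≤ a * h ^ 3 / 2)
    (h2 : |ζ'.re - ζ.re| ≤ a * h ^ 3 / 2) :
    a * h * ‖zst S w ζ' t' - zst S w ζ t‖ ≤ ‖ζ' - ζ‖ + C0 * |t' - t| ∧
    a * h ^ 2 * ‖wx S w ζ' t' - wx S w ζ t‖ ≤ ‖zst S w ζ' t' - zst S w ζ t‖ := by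
  obtain ⟨n1, n2⟩ := zst_near H R ht hζ
  obtain ⟨n3, n4⟩ := zst_near H R ht' hζ'
  obtain ⟨s1, s2, s3⟩ := zst_spec H R ht hζ
  obtain ⟨s4, s5, s6⟩ := zst_spec H R ht' hζ'
  have hA := H.A0
  have a1 : |(zst S w ζ' t').1 - ζ.re| ≤ a * h ^ 3 := by
    have := abs_sub_le (zst S w ζ' t').1 ζ'.re ζ.re
    linarith
  have a2 : |(zst S w ζ' t').2 - t| ≤ a * h ^ 3 := by
    have := abs_sub_le (zst S w ζ' t').2 t' t
    linarith
  have b := H.bil t ht ζ.re (zst S w ζ' t') (zst S w ζ t) a1 a2 (by linarith) (by linarith)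
  refine ⟨b.1.trans ?_, b.2⟩
  have e1 : XF S w t (zst S w ζ' t') = ζ' + (t - t') * OmF S w (zst S w ζ' t') := by
    rw [XF_time S w t t', s6]
  rw [e1, s3]
  have e2 : ζ' + (t - t') * OmF S w (zst S w ζ' t') - ζ
      = (ζ' - ζ) + (t - t') * OmF S w (zst S w ζ' t') := by ring
  rw [e2]
  refine (norm_add_le _ _).trans ?_
  have e3 : ‖((t:ℂ) - t') * OmF S w (zst S w ζ' t')‖ ≤ C0 * |t' - t| := by
    rw [norm_mul, mul_comm]
    have : ‖(t:ℂ) - t'‖ = |t' - t| := by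
      rw [← Complex.ofReal_sub, Complex.norm_real, Real.norm_eq_abs, abs_sub_comm]
    rw [this]
    exact mul_le_mul_of_nonneg_right (H.om _ s4.le s5) (abs_nonneg _)
  linarith

end Pool.Agent.Helper52.FT
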