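import Pool.Agent.Helper52.FT.Strip

/-!
# FT-STRIP, second part
-/

set_option autoImplicit false

namespace Pool.Agent.Helper52.FT

open Complex Set Filter Topology
open Pool.Agent.Helper76.FT

/-- continuity of the extended torus -/
theorem wx_cont {S : Sys} {w : ℂ → ℝ → ℂ} {h a c0 C0 ρ : ℝ} (H : XO S w h a c0 C0)
    (R : RC h a c0 C0 ρ) :
    ContinuousOn (fun q : ℂ × ℝ => wx S w q.1 q.2) (Str ρ ×ˢ Icc (0:ℝ) 1) := by
  intro q hq
  have hA := H.A0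
  have h0 := H.h0
  have a0 := H.a0
  have hb : ∀ᶠ q' in 𝓝[Str ρ ×ˢ Icc (0:ℝ) 1] q, ‖wx S w q'.1 q'.2 - wx S w q.1 q.2‖ ≤
      (‖q'.1 - q.1‖ + C0 * |q'.2 - q.2|) / (a * h * (a * h ^ 2)) := by
    have hn : ∀ᶠ q' in 𝓝 q, dist q' q < a * h ^ 3 / 2 := Metric.ball_mem_nhds q (by linarith)
    filter_upwards [self_mem_nhdsWithin, mem_nhdsWithin_of_mem_nhds hn] with q' hq' hd
    have e1 : |q'.2 - q.2| ≤ a * h ^ 3 / 2 := by
      have := (norm_snd_le (q' - q)).trans (dist_eq_norm q' q ▸ hd.le)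
      exact this
    have e2 : |q'.1.re - q.1.re| ≤ a * h ^ 3 / 2 := by
      have h1 := (norm_fst_le (q' - q)).trans (dist_eq_norm q' q ▸ hd.le)
      have h2 := Complex.abs_re_le_norm (q'.1 - q.1)
      simp only [Complex.sub_re] at h2
      exact h2.trans h1
    obtain ⟨b1, b2⟩ := wx_lip H R hq.2 hq'.2 hq.1 hq'.1 e1 e2
    rw [le_div_iff₀ (by positivity)]
    have hp : 0 < a * h := by positivity
    nlinarith [mul_le_mul_of_nonneg_left b2 hp.le]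
  rw [ContinuousWithinAt, tendsto_iff_norm_sub_tendsto_zero]
  apply squeeze_zero' (Filter.Eventually.of_forall fun _ => norm_nonneg _) hb
  have hc : Continuous (fun q' : ℂ × ℝ =>
      (‖q'.1 - q.1‖ + C0 * |q'.2 - q.2|) / (a * h * (a * h ^ 2))) := by fun_prop
  have := hc.tendsto q
  simp only [sub_self, norm_zero, abs_zero, mul_zero, add_zero, zero_div] at this
  exact this.mono_left nhdsWithin_le_nhds

/-- continuity of `z*` in `ζ` -/
theorem zst_cont {S : Sys} {w : ℂ → ℝ → ℂ} {h a c0 C0 ρ : ℝ} (H : XO S w h a c0 C0)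
    (R : RC h a c0 C0 ρ) {t : ℝ} (ht : t ∈ Icc (0:ℝ) 1) {ζ : ℂ} (hζ : ζ ∈ Str ρ) :
    Tendsto (fun ζ' => zst S w ζ' t) (𝓝 ζ) (𝓝 (zst S w ζ t)) := by
  have hA := H.A0
  have h0 := H.h0
  have a0 := H.a0
  have hb : ∀ᶠ ζ' in 𝓝 ζ, ‖zst S w ζ' t - zst S w ζ t‖ ≤ ‖ζ' - ζ‖ / (a * h) := by
    have hn : ∀ᶠ ζ' in 𝓝 ζ, dist ζ' ζ < a * h ^ 3 / 2 := Metric.ball_mem_nhds ζ (by linarith)
    filter_upwards [(isOpen_Str ρ).mem_nhds hζ, hn] with ζ' hζ' hd
    have e2 : |ζ'.re - ζ.re| ≤ a * h ^ 3 / 2 := by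
      have h2 := Complex.abs_re_le_norm (ζ' - ζ)
      simp only [Complex.sub_re] at h2
      exact h2.trans (dist_eq_norm ζ' ζ ▸ hd.le)
    obtain ⟨b1, -⟩ := wx_lip H R ht ht hζ hζ' (by simp; linarith) e2
    rw [le_div_iff₀ (by positivity)]
    simp only [sub_self, abs_zero, mul_zero, add_zero] at b1
    linarith
  rw [tendsto_iff_norm_sub_tendsto_zero]
  apply squeeze_zero' (Filter.Eventually.of_forall fun _ => norm_nonneg _) hb
  have hc : Continuous (fun ζ' : ℂ => ‖ζ' - ζ‖ / (a * h)) := by fun_prop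
  have := hc.tendsto ζ
  simpa using this

/-- holomorphy of the extended torus -/
theorem wx_hol {S : Sys} {w : ℂ → ℝ → ℂ} {h a c0 C0 ρ : ℝ} (H : XO S w h a c0 C0)
    (R : RC h a c0 C0 ρ) {t : ℝ} (ht : t ∈ Icc (0:ℝ) 1)
    (hTH : ∀ z : ℝ × ℝ, -1 < z.2 → z.2 < 2 → TH w (OmF S w) z ∧ TH w (XF S w t) z)
    (hch : ∀ z : ℝ × ℝ, Filter.map (chi w z) (𝓝 z) = 𝓝 0)
    (M : ℝ) (hM : ∀ z : ℝ × ℝ, ‖wt w z‖ ≤ M) :
    DifferentiableOn ℂ (fun ζ => wx S w ζ t) (Str ρ) := by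
  intro ζ hζ
  apply DifferentiableAt.differentiableWithinAt
  have hA := H.A0
  have h0 := H.h0
  have a0 := H.a0
  obtain ⟨s1, s2, s3⟩ := zst_spec H R ht hζ
  obtain ⟨n1, n2⟩ := zst_near H R ht hζ
  have hzc := zst_cont H R ht hζ
  have hev : ∀ᶠ ζ' in 𝓝 ζ, XF S w t (zst S w ζ' t) = ζ' := by
    filter_upwards [(isOpen_Str ρ).mem_nhds hζ] with ζ' hζ'
    exact (zst_spec H R ht hζ').2.2
  obtain ⟨z₁, hz₁⟩ : ∃ z₁ : ℝ × ℝ, z₁ = zst S w ζ t := ⟨_, rfl⟩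
  rw [← hz₁] at s1 s2 s3 n1 n2 hzc
  obtain ⟨⟨hO, hOa, hOe⟩, ⟨hX, hXa, hXe⟩⟩ := hTH z₁ s1 s2
  have hchi : Tendsto (chi w z₁) (𝓝 z₁) (𝓝 0) := (hch z₁).le
  have hchi1 : chi w z₁ z₁ = 0 := by simp [chi]
  have hM0 : 0 ≤ M := (norm_nonneg _).trans (hM z₁)
  have hX0 : hX 0 = ζ := by
    have := hXe.self_of_nhds
    rw [hchi1] at this
    rw [← this, s3]
  -- lower bound of hX
  have hlow : ∀ᶠ ε in 𝓝 (0:ℂ), a * h / (1 + M) * ‖ε‖ ≤ ‖hX ε - hX 0‖ := by
    rw [← hch z₁, Filter.eventually_map]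
    have hn : ∀ᶠ z in 𝓝 z₁, dist z z₁ < a * h ^ 3 / 2 := Metric.ball_mem_nhds z₁ (by linarith)
    filter_upwards [hXe, hn] with z hz hd
    rw [← hz, hX0]
    rw [dist_eq_norm] at hd
    have e1 : |z.1 - z₁.1| < a * h ^ 3 / 2 := (norm_fst_le (z - z₁)).trans_lt hd
    have e2 : |z.2 - z₁.2| < a * h ^ 3 / 2 := (norm_snd_le (z - z₁)).trans_lt hd
    have e3 : |z.1 - ζ.re| ≤ a * h ^ 3 := by
      have := abs_sub_le z.1 z₁.1 ζ.re
      linarith
    have e4 : |z.2 - t| ≤ a * h ^ 3 := by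
      have := abs_sub_le z.2 z₁.2 t
      linarith
    have b := (H.bil t ht ζ.re z z₁ e3 e4 (by linarith) (by linarith)).1
    rw [s3] at b
    refine le_trans ?_ b
    have e5 : ‖chi w z₁ z‖ ≤ (1 + M) * ‖z - z₁‖ := by
      unfold chi
      refine (norm_add_le _ _).trans ?_
      rw [norm_mul, Complex.norm_real, Complex.norm_real, Real.norm_eq_abs, Real.norm_eq_abs]
      have f1 : |z.1 - z₁.1| ≤ ‖z - z₁‖ := norm_fst_le (z - z₁)
      have f2 : |z₁.2 - z.2| ≤ ‖z - z₁‖ := by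
        rw [abs_sub_comm]; exact norm_snd_le (z - z₁)
      have f3 := hM z
      have f4 : |z₁.2 - z.2| * ‖wt w z‖ ≤ ‖z - z₁‖ * M :=
        mul_le_mul f2 f3 (norm_nonneg _) (norm_nonneg _)
      linarith
    have hpM : 0 < 1 + M := by linarith
    rw [div_mul_eq_mul_div, div_le_iff₀ hpM]
    nlinarith [mul_le_mul_of_nonneg_left e5 (by positivity : 0 ≤ a * h)]
  have hd0 : deriv hX 0 ≠ 0 := by
    intro hz
    have h1 := hXa.differentiableAt.hasDerivAt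
    rw [hz, hasDerivAt_iff_isLittleO] at h1
    have hcpos : 0 < a * h / (1 + M) := by positivity
    have h2 := h1.def (half_pos hcpos)
    have h3 : ∀ᶠ ε in 𝓝 (0:ℂ), ε = 0 := by
      filter_upwards [h2, hlow] with ε e1 e2
      simp only [sub_zero, smul_zero] at e1
      by_contra hne
      have := norm_pos_iff.2 hne
      nlinarith
    obtain ⟨r, hr, h4⟩ := Metric.eventually_nhds_iff.1 h3
    have h5 : ((r / 2 : ℝ) : ℂ) = 0 := by
      apply h4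
      rw [dist_eq_norm, sub_zero, Complex.norm_real, Real.norm_eq_abs, abs_of_pos (by positivity)]
      linarith
    have h6 := congrArg Complex.re h5
    simp only [Complex.ofReal_re, Complex.zero_re] at h6
    linarith
  have hs := hXa.hasStrictDerivAt
  have hinv := hs.to_localInverse hd0
  have hleft := hs.eventually_left_inverse hd0
  obtain ⟨g, hg⟩ : ∃ g : ℂ → ℂ, g = hs.localInverse hX (deriv hX 0) 0 hd0 := ⟨_, rfl⟩
  rw [← hg, hX0] at hinv
  rw [← hg] at hleft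
  have hg0 : g ζ = 0 := by
    have := hleft.self_of_nhds
    rwa [hX0] at this
  have heps : Tendsto (fun ζ' => chi w z₁ (zst S w ζ' t)) (𝓝 ζ) (𝓝 0) := hchi.comp hzc
  have heq : ∀ᶠ ζ' in 𝓝 ζ, wx S w ζ' t = hO (g ζ') := by
    filter_upwards [heps.eventually hleft, hev, hzc.eventually hXe, hzc.eventually hOe]
      with ζ' e1 e2 e3 e4
    rw [e2] at e3
    rw [← e3] at e1
    rw [e1, ← e4]
    rfl
  have hcomp : DifferentiableAt ℂ (fun ζ' => hO (g ζ')) ζ := by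
    apply DifferentiableAt.comp ζ (g := hO) _ hinv.hasDerivAt.differentiableAt
    rw [hg0]
    exact hOa.differentiableAt
  exact hcomp.congr_of_eventuallyEq heq

/-! ### translation in space and time -/

theorem fract_neg {s : ℝ} (h1 : -1 ≤ s) (h2 : s < 0) : Int.fract s = s + 1 := by
  have : ⌊s⌋ = -1 := by
    rw [Int.floor_eq_iff]
    push_cast
    constructor <;> linarith
  rw [Int.fract, this]
  push_cast
  ring

theorem fract_mid {s : ℝ} (h1 : 0 ≤ s) (h2 : s < 1) : Int.fract s = s := by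
  rw [Int.fract_eq_self]
  exact ⟨h1, h2⟩

theorem fract_one {s : ℝ} (h1 : 1 ≤ s) (h2 : s < 2) : Int.fract s = s - 1 := by
  have : ⌊s⌋ = 1 := by
    rw [Int.floor_eq_iff]
    push_cast
    constructor <;> linarith
  rw [Int.fract, this]
  push_cast
  ring

theorem str_real {ρ : ℝ} (hρ : 0 < ρ) (x : ℝ) : (x : ℂ) ∈ Str ρ := by
  simp only [Str, mem_ofPred_eq, Complex.ofReal_im, abs_zero]
  exact hρ

/-- facts on the torus used for the construction -/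
structure TF (S : Sys) (w : ℂ → ℝ → ℂ) : Prop where
  per : ∀ x t : ℝ, t ∈ Icc (0:ℝ) 1 → w ((x : ℂ) + 1) t = w (x : ℂ) t
  nb1 : ∀ z : ℝ × ℝ, -1 ≤ z.2 → z.2 < 0 →
    ((z.1 : ℂ) - z.2 * wt w z, wt w z) ∈ S.Nb 1 S.r
  nb0 : ∀ z : ℝ × ℝ, 1 ≤ z.2 → z.2 < 2 →
    ((z.1 : ℂ) + (1 - z.2) * wt w z, wt w z) ∈ S.Nb 0 S.r

theorem TF.of {S : Sys} (hS : S.Ok) (hReg : GReg) {δ ρ : ℝ} {w : ℂ → ℝ → ℂ} {c : ℂ}
    (hδ : δ < S.r) (hT : Tor S δ w ρ c) : TF S w := by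
  obtain ⟨-, -, -, -, -, -, -, -, hmv, -⟩ := hReg S hS
  have hpos : ∀ z : ℝ × ℝ, (z.1, (wt w z).re) ∈ S.Reg (Int.fract z.2) ∧ |(wt w z).im| < S.r := by
    intro z
    have hf : Int.fract z.2 ∈ Icc (0:ℝ) 1 := ⟨Int.fract_nonneg _, (Int.fract_lt_one _).le⟩
    refine ⟨hT.reg z.1 _ hf, ?_⟩
    have := hT.pos z.1 _ hf
    unfold wt
    rw [abs_of_pos this.1]
    linarith [this.2]
  refine ⟨?_, ?_, ?_⟩
  · intro x t ht
    exact hT.sh.per _ (str_real hT.hρ x) t ht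
  · intro z h1 h2
    have hf : Int.fract z.2 ∈ Icc (0:ℝ) 1 := ⟨Int.fract_nonneg _, (Int.fract_lt_one _).le⟩
    have := hmv (Int.fract z.2) hf 1 ⟨zero_le_one, le_rfl⟩ z.1 (wt w z) (hpos z).1 (hpos z).2
    rw [fract_neg h1 h2] at this
    convert this using 2
    push_cast
    ring
  · intro z h1 h2
    have hf : Int.fract z.2 ∈ Icc (0:ℝ) 1 := ⟨Int.fract_nonneg _, (Int.fract_lt_one _).le⟩
    have := hmv (Int.fract z.2) hf 0 ⟨le_rfl, zero_le_one⟩ z.1 (wt w z) (hpos z).1 (hpos z).2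
    rw [fract_one h1 h2] at this
    convert this using 2
    push_cast
    ring

theorem wt_per {S : Sys} {w : ℂ → ℝ → ℂ} (F : TF S w) (z : ℝ × ℝ) :
    wt w (z.1 + 1, z.2) = wt w z := by
  unfold wt
  have hf : Int.fract z.2 ∈ Icc (0:ℝ) 1 := ⟨Int.fract_nonneg _, (Int.fract_lt_one _).le⟩
  have := F.per z.1 (Int.fract z.2) hf
  push_cast
  exact this

theorem OmF_per {S : Sys} (hS : S.Ok) {w : ℂ → ℝ → ℂ} (F : TF S w) (z : ℝ × ℝ) (h1 : -1 ≤ z.2)
    (h2 : z.2 < 2) : OmF S w (z.1 + 1, z.2) = OmF S w z := by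
  unfold OmF
  simp only [wt_per F z]
  split_ifs with g1 g2
  · have := hS.Kper _ (F.nb1 z h1 g1)
    rw [← this]
    congr 1
    push_cast
    ring
  · rfl
  · have := hS.Kiper _ (F.nb0 z (not_lt.1 g2) h2)
    rw [← this]
    congr 1
    push_cast
    ring

theorem XF_per {S : Sys} (hS : S.Ok) {w : ℂ → ℝ → ℂ} (F : TF S w) (t : ℝ) (z : ℝ × ℝ)
    (h1 : -1 ≤ z.2) (h2 : z.2 < 2) : XF S w t (z.1 + 1, z.2) = XF S w t z + 1 := by
  have ho := OmF_per hS F z h1 h2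
  unfold XF
  simp only [wt_per F z, ho]
  split_ifs with g1 g2
  · push_cast; ring
  · push_cast; ring
  · push_cast; ring

/-- one step back in time -/
theorem kick_back {S : Sys} (hS : S.Ok) {w : ℂ → ℝ → ℂ} (F : TF S w) (z : ℝ × ℝ)
    (h1 : 0 ≤ z.2) (h2 : z.2 < 2) :
    XF S w 0 (z.1, z.2 - 1) = XF S w 1 z ∧
      OmF S w (z.1, z.2 - 1) = S.K (XF S w 1 z) (OmF S w z) := by
  have hwt : wt w (z.1, z.2 - 1) = wt w z := by
    unfold wt
    simp only [Int.fract_sub_one]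
  by_cases g : z.2 < 1
  · have g1 : z.2 - 1 < 0 := by linarith
    have g2 : ¬ z.2 < 0 := not_lt.2 h1
    unfold XF OmF
    simp only [hwt, g, g1, g2, if_true, if_false]
    constructor
    · push_cast; ring
    · congr 1
      push_cast; ring
  · have g0 : 1 ≤ z.2 := not_lt.1 g
    have g1 : ¬ z.2 - 1 < 0 := by linarith
    have g2 : ¬ z.2 < 0 := not_lt.2 h1
    have g3 : z.2 - 1 < 1 := by linarith
    have hK := hS.KKi _ (F.nb0 z g0 h2)
    unfold XF OmF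
    simp only [hwt, g, g1, g2, g3, if_true, if_false]
    constructor
    · push_cast; ring
    · rw [Complex.ofReal_one, sub_self, zero_mul, add_zero]
      exact hK.symm

end Pool.Agent.Helper52.FT
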