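import Pool.Agent.Helper52.FT.Strip2

/-!
# FT-STRIP, assembly
-/

set_option autoImplicit false

namespace Pool.Agent.Helper52.FT

open Complex Set Filter Topology
open Pool.Agent.Helper76.FT

theorem XO.of {S : Sys} (hS : S.Ok) (hOM : GOM) (hTHX : GTHX) {δ ρ : ℝ} {w : ℂ → ℝ → ℂ} {c : ℂ}
    (hδr : δ < S.r) (hT : Tor S δ w ρ c) {c0 C0 a h : ℝ} (hc0 : 0 < c0) (hC0 : 0 < C0)
    (ha : 0 < a) (ha2 : a < 1 / 2) (h0 : 0 < h) (h1 : h ≤ 1)
    (hlow : ∀ x : ℝ, ∀ t ∈ Icc (0:ℝ) 1, h ≤ (w (x : ℂ) t).im)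
    (hsign : ∀ t₀ ∈ Icc (0:ℝ) 1, ∀ z : ℝ × ℝ, -1 ≤ z.2 → z.2 < 2 →
      (z.2 ≤ t₀ → c0 * (t₀ - z.2) * (wt w z).im ≤ (XF S w t₀ z).im) ∧
      (t₀ ≤ z.2 → (XF S w t₀ z).im ≤ -(c0 * (z.2 - t₀) * (wt w z).im)) ∧
      |(OmF S w z).im| ≤ C0 * (wt w z).im ∧ ‖OmF S w z‖ ≤ C0 ∧
      ‖XF S w t₀ z - z.1‖ ≤ C0 * |z.2 - t₀|)
    (hbil : ∀ t₀ ∈ Icc (0:ℝ) 1, ∀ (x : ℝ) (z z' : ℝ × ℝ), |z.1 - x| ≤ a * h ^ 3 →
      |z.2 - t₀| ≤ a * h ^ 3 → |z'.1 - x| ≤ a * h ^ 3 → |z'.2 - t₀| ≤ a * h ^ 3 →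
      a * h * ‖z - z'‖ ≤ ‖XF S w t₀ z - XF S w t₀ z'‖ ∧
      a * h ^ 2 * ‖OmF S w z - OmF S w z'‖ ≤ ‖z - z'‖) : XO S w h a c0 C0 := by
  refine ⟨h0, h1, ha, ha2, hc0, hC0, ?_, ?_, ?_, hbil, ?_, ?_⟩
  · intro t₀ ht z hz1 hz2
    obtain ⟨s1, s2, -⟩ := hsign t₀ ht z hz1 hz2
    have hw : h ≤ (wt w z).im := hlow z.1 _ ⟨Int.fract_nonneg _, (Int.fract_lt_one _).le⟩
    rcases le_total z.2 t₀ with g | g
    · have e1 := s1 g
      have e2 : |z.2 - t₀| = t₀ - z.2 := by rw [abs_sub_comm, abs_of_nonneg (by linarith)]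
      rw [e2]
      have e3 : 0 ≤ c0 * (t₀ - z.2) := mul_nonneg hc0.le (by linarith)
      exact (mul_le_mul_of_nonneg_left hw e3).trans (e1.trans (le_abs_self _))
    · have e1 := s2 g
      have e2 : |z.2 - t₀| = z.2 - t₀ := abs_of_nonneg (by linarith)
      rw [e2]
      have e3 : 0 ≤ c0 * (z.2 - t₀) := mul_nonneg hc0.le (by linarith)
      have e4 := mul_le_mul_of_nonneg_left hw e3
      have e5 := neg_abs_le (XF S w t₀ z).im
      linarith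
  · intro t₀ ht z hz1 hz2
    exact (hsign t₀ ht z hz1 hz2).2.2.2.2
  · intro z hz1 hz2
    exact (hsign 0 ⟨le_rfl, zero_le_one⟩ z hz1 hz2).2.2.2.1
  · intro t₀ ht z hz1 hz2
    exact ((hOM S hS δ ρ w c hT z).1 _ (hTHX S hS δ ρ w c hδr hT t₀ ht z hz1 hz2).2.1).2
  · intro t₀ ht z hz1 hz2
    exact ((hOM S hS δ ρ w c hT z).1 _ (hTHX S hS δ ρ w c hδr hT t₀ ht z hz1 hz2).2.1).1

theorem wx_real {S : Sys} (hS : S.Ok) {δ ρ₀ : ℝ} {w : ℂ → ℝ → ℂ} {c : ℂ}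
    (hT : Tor S δ w ρ₀ c) {h a c0 C0 ρ : ℝ} (H : XO S w h a c0 C0) (R : RC h a c0 C0 ρ) (x t : ℝ)
    (ht : t ∈ Icc (0:ℝ) 1) : wx S w (x : ℂ) t = w (x : ℂ) t := by
  have h1 : zst S w (x : ℂ) t = (x, t) :=
    zst_eq H R ht (str_real R.r0 x) (by change -1 ≤ t; linarith [ht.1])
      (by change t < 2; linarith [ht.2]) (XF_self S w x t ht)
  unfold wx
  rw [h1]
  have hn : ¬ t < 0 := not_lt.2 ht.1
  rcases lt_or_eq_of_le ht.2 with g | g
  · unfold OmF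
    simp only [hn, g, if_true, if_false]
    unfold wt
    simp only
    rw [fract_mid ht.1 g]
  · subst g
    unfold OmF
    simp only [hn, lt_irrefl, if_false, Complex.ofReal_one, sub_self, zero_mul, add_zero]
    have e1 : wt w (x, 1) = w (x : ℂ) 0 := by
      unfold wt
      simp only [Int.fract_one]
    rw [e1, hT.kick _ (str_real hT.hρ x)]
    exact hS.KiK _ (hT.nb _ (str_real hT.hρ x) 1 ⟨zero_le_one, le_rfl⟩)

theorem ft_strip : GReg → GChart → GOM → GSign → GTHX → GTorP → GBiLip → GStrip := by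
  intro hReg hChart hOM hSign hTHX hTorP hBiLip S hS
  obtain ⟨δs, c0, C0, hδs, hc0, hC0, hsign⟩ := hSign S hS
  obtain ⟨δb, a, hδb, ha, ha2, hbil⟩ := hBiLip S hS
  obtain ⟨k0, M, hk0, hM, htorp⟩ := hTorP S hS
  have hr := hS.hr
  obtain ⟨q, hq0, hq1, hq2, hq3, hq4, hq5⟩ : ∃ q : ℝ, 0 < q ∧ q ≤ c0 * (a / 2) ∧
      C0 * q ≤ c0 * (a / 2) ∧ q ≤ a / 2 ∧ q ≤ a ^ 2 * (S.r / 4) ∧ q ≤ S.r / 2 := by
    refine ⟨min (min (c0 * (a / 2)) (c0 * (a / 2) / C0)) (min (a / 2)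
      (min (a ^ 2 * (S.r / 4)) (S.r / 2))), by positivity, ?_, ?_, ?_, ?_, ?_⟩
    · exact (min_le_left _ _).trans (min_le_left _ _)
    · have h1 : min (min (c0 * (a / 2)) (c0 * (a / 2) / C0)) (min (a / 2)
        (min (a ^ 2 * (S.r / 4)) (S.r / 2))) ≤ c0 * (a / 2) / C0 :=
        (min_le_left _ _).trans (min_le_right _ _)
      have h2 := mul_le_mul_of_nonneg_left h1 hC0.le
      have h3 : C0 * (c0 * (a / 2) / C0) = c0 * (a / 2) := by field_simp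
      linarith
    · exact (min_le_right _ _).trans (min_le_left _ _)
    · exact (min_le_right _ _).trans ((min_le_right _ _).trans (min_le_left _ _))
    · exact (min_le_right _ _).trans ((min_le_right _ _).trans (min_le_right _ _))
  refine ⟨min (min δs δb) (S.r / 4), q, 4, by positivity, hq0, by norm_num, ?_⟩
  intro δ ρ₀ w c hδ hT h h0 h1 hlow
  have hδ1 : δ ≤ δs := hδ.trans ((min_le_left _ _).trans (min_le_left _ _))
  have hδ2 : δ ≤ δb := hδ.trans ((min_le_left _ _).trans (min_le_right _ _))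
  have hδ3 : δ ≤ S.r / 4 := hδ.trans (min_le_right _ _)
  have hδr : δ < S.r := by linarith
  have H : XO S w h a c0 C0 := XO.of hS hOM hTHX hδr hT hc0 hC0 ha ha2 h0 h1 hlow
    (hsign δ ρ₀ w c hδ1 hT) (hbil δ ρ₀ w c hδ2 hT h h0 h1 hlow)
  have h3pos : 0 < h ^ 3 := by positivity
  have h4pos : 0 < h ^ 4 := by positivity
  have h4le : h ^ 4 ≤ 1 := pow_le_one₀ h0.le h1
  have h43 : h ^ 4 = h * h ^ 3 := by ring
  have R : RC h a c0 C0 (q * h ^ 4) := by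
    refine ⟨by positivity, ?_, ?_, ?_⟩
    · nlinarith [mul_le_mul_of_nonneg_right hq1 h4pos.le]
    · nlinarith [mul_le_mul_of_nonneg_right hq2 h4pos.le]
    · rw [h43]
      have e1 : q * h ≤ a / 2 := by nlinarith
      nlinarith [mul_le_mul_of_nonneg_right e1 h3pos.le]
  have F : TF S w := TF.of hS hReg hδr hT
  have hMw : ∀ z : ℝ × ℝ, ‖wt w z‖ ≤ M := by
    intro z
    exact ((htorp δ ρ₀ w c hT).2.2.2.2.2.2 z.1 _
      ⟨Int.fract_nonneg z.2, (Int.fract_lt_one z.2).le⟩).2.2.2.2.2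
  have hreal := wx_real hS hT H R
  refine ⟨wx S w, ?_, fun x t ht => hreal x t ht⟩
  refine ⟨R.r0, ⟨?_, wx_cont H R, ?_⟩, ?_, ?_, ?_, ?_, ?_, ?_⟩
  · -- holomorphic
    intro t ht
    apply wx_hol H R ht (fun z hz1 hz2 => ?_) (fun z => (hChart S hS δ ρ₀ w c hT z).1) M hMw
    exact ⟨(hTHX S hS δ ρ₀ w c hδr hT t ht z hz1 hz2).1,
      (hTHX S hS δ ρ₀ w c hδr hT t ht z hz1 hz2).2.1⟩
  · -- periodic
    intro ζ hζ t ht
    obtain ⟨s1, s2, s3⟩ := zst_spec H R ht hζ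
    have hζ' : ζ + 1 ∈ Str (q * h ^ 4) := by
      have : |ζ.im| < q * h ^ 4 := hζ
      simpa [Str] using this
    have e := zst_eq H R ht hζ' (z := ((zst S w ζ t).1 + 1, (zst S w ζ t).2)) s1.le s2
      (by rw [XF_per hS F t _ s1.le s2, s3])
    unfold wx
    rw [e, OmF_per hS F _ s1.le s2]
  · -- neighbourhood
    intro ζ hζ t ht
    have hζ' : |ζ.im| < q * h ^ 4 := hζ
    have hxR := str_real R.r0 ζ.re
    have hn : ‖ζ - (ζ.re : ℂ)‖ = |ζ.im| := by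
      have : ζ - (ζ.re : ℂ) = (ζ.im : ℂ) * I := by
        apply Complex.ext <;> simp
      rw [this, norm_mul, Complex.norm_I, mul_one, Complex.norm_real, Real.norm_eq_abs]
    obtain ⟨b1, b2⟩ := wx_lip H R ht ht hxR hζ (by simp; linarith [H.A0.1])
      (by simp; linarith [H.A0.1])
    rw [hreal ζ.re t ht] at b2
    simp only [sub_self, abs_zero, mul_zero, add_zero] at b1
    rw [hn] at b1
    have hd : ‖wx S w ζ t - w (ζ.re : ℂ) t‖ ≤ S.r / 4 := by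
      have e1 : (a * h) * (a * h ^ 2 * ‖wx S w ζ t - w (ζ.re : ℂ) t‖) ≤ q * h ^ 4 := by
        have : 0 ≤ a * h := by positivity
        exact (mul_le_mul_of_nonneg_left b2 this).trans (b1.trans hζ'.le)
      have e2 : (a ^ 2 * h ^ 3) * ‖wx S w ζ t - w (ζ.re : ℂ) t‖
          ≤ (a ^ 2 * h ^ 3) * (S.r / 4) := by
        have e3 : q * h ^ 4 ≤ (a ^ 2 * h ^ 3) * (S.r / 4) := by
          rw [h43]
          have : q * h ≤ a ^ 2 * (S.r / 4) := by nlinarith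
          nlinarith [mul_le_mul_of_nonneg_right this h3pos.le]
        nlinarith
      exact le_of_mul_le_mul_left e2 (by positivity)
    refine ⟨(ζ.re, (w (ζ.re : ℂ) t).re), hT.reg ζ.re t ht, ?_, ?_⟩
    · change ‖ζ - (ζ.re : ℂ)‖ < S.r
      rw [hn]
      nlinarith
    · change ‖wx S w ζ t - ((w (ζ.re : ℂ) t).re : ℂ)‖ < S.r
      have e4 : wx S w ζ t - ((w (ζ.re : ℂ) t).re : ℂ)
          = (wx S w ζ t - w (ζ.re : ℂ) t) + ((w (ζ.re : ℂ) t).im : ℂ) * I := by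
        have := Complex.re_add_im (w (ζ.re : ℂ) t)
        linear_combination -this
      rw [e4]
      refine (norm_add_le _ _).trans_lt ?_
      rw [norm_mul, Complex.norm_I, mul_one, Complex.norm_real, Real.norm_eq_abs]
      obtain ⟨p1, p2⟩ := hT.pos ζ.re t ht
      rw [abs_of_pos p1]
      linarith
  · -- line
    intro ζ hζ s hs t ht hζ2
    obtain ⟨s1, s2, s3⟩ := zst_spec H R ht hζ
    have e := zst_eq H R hs hζ2 (z := zst S w ζ t) s1.le s2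
      (by rw [XF_time S w s t, s3]; rfl)
    change OmF S w (zst S w (ζ + ((s:ℂ) - (t:ℂ)) * wx S w ζ t) s) = OmF S w (zst S w ζ t)
    rw [e]
  · -- kick
    intro ζ hζ
    have ht1 : (1:ℝ) ∈ Icc (0:ℝ) 1 := ⟨zero_le_one, le_rfl⟩
    have ht0 : (0:ℝ) ∈ Icc (0:ℝ) 1 := ⟨le_rfl, zero_le_one⟩
    obtain ⟨s1, s2, s3⟩ := zst_spec H R ht1 hζ
    obtain ⟨n1, -⟩ := zst_near H R ht1 hζ
    have hA := H.A0
    have g0 : 0 ≤ (zst S w ζ 1).2 := by
      have := (abs_lt.1 n1).1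
      linarith
    obtain ⟨k1, k2⟩ := kick_back hS F (zst S w ζ 1) g0 s2
    have e := zst_eq H R ht0 hζ (z := ((zst S w ζ 1).1, (zst S w ζ 1).2 - 1))
      (by change -1 ≤ (zst S w ζ 1).2 - 1; linarith)
      (by change (zst S w ζ 1).2 - 1 < 2; linarith) (by rw [k1, s3])
    change OmF S w (zst S w ζ 0) = S.K ζ (OmF S w (zst S w ζ 1))
    rw [e, k2, s3]
  · intro x t ht
    rw [hreal x t ht]
    exact hT.pos x t ht
  · intro x t ht
    rw [hreal x t ht]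
    exact hT.reg x t ht
  · rw [← hT.mean]
    congr 1
    funext x
    rw [hreal x 0 ⟨le_rfl, zero_le_one⟩]

end Pool.Agent.Helper52.FT
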