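import Pool.Agent.Helper76.FT.GoalsB

/-!
# FT-TYP: typically real functions, linear lower bound
-/

set_option autoImplicit false

namespace Pool.Agent.Helper52.FT

open Complex Set Filter Topology Metric
open Pool.Agent.Helper76.FT

theorem ball_conj (x0 R : ℝ) (z : ℂ) (hz : z ∈ ball (x0 : ℂ) R) :
    (starRingEnd ℂ) z ∈ ball (x0 : ℂ) R := by
  rw [mem_ball, dist_eq] at *
  have : (starRingEnd ℂ) z - x0 = (starRingEnd ℂ) (z - x0) := by simp
  rw [this, Complex.norm_conj]
  exact hz

/-- a function real on the diameter is symmetric -/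
theorem typ_sym (f : ℂ → ℂ) (x0 R : ℝ) (hR : 0 < R) (hf : DifferentiableOn ℂ f (ball (x0 : ℂ) R))
    (hreal : ∀ x : ℝ, |x - x0| < R → (f x).im = 0) :
    ∀ z ∈ ball (x0 : ℂ) R, f ((starRingEnd ℂ) z) = (starRingEnd ℂ) (f z) := by
  have h1 : AnalyticOnNhd ℂ f (ball (x0 : ℂ) R) := hf.analyticOnNhd isOpen_ball
  have hd : DifferentiableOn ℂ ((starRingEnd ℂ) ∘ f ∘ (starRingEnd ℂ)) (ball (x0 : ℂ) R) := by
    intro z hz
    apply DifferentiableAt.differentiableWithinAt
    rw [differentiableAt_conj_conj_iff]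
    exact (hf _ (ball_conj x0 R z hz)).differentiableAt (isOpen_ball.mem_nhds (ball_conj x0 R z hz))
  have h2 : AnalyticOnNhd ℂ ((starRingEnd ℂ) ∘ f ∘ (starRingEnd ℂ)) (ball (x0 : ℂ) R) :=
    hd.analyticOnNhd isOpen_ball
  have hfreq : ∃ᶠ z in 𝓝[≠] (x0 : ℂ), f z = ((starRingEnd ℂ) ∘ f ∘ (starRingEnd ℂ)) z := by
    have hseq : Tendsto (fun n : ℕ => ((x0 + (1 : ℝ) / (n + 1) : ℝ) : ℂ)) atTop (𝓝[≠] (x0 : ℂ)) := by
      rw [tendsto_nhdsWithin_iff]
      constructor
      · have := (tendsto_one_div_add_atTop_nhds_zero_nat (𝕜 := ℝ)).const_add x0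
        rw [add_zero] at this
        exact (Complex.continuous_ofReal.tendsto x0).comp this
      · filter_upwards with n
        have : (0:ℝ) < 1 / ((n:ℝ) + 1) := by positivity
        simp only [mem_compl_iff, mem_singleton_iff]
        intro h
        have h' := congrArg Complex.re h
        simp only [Complex.ofReal_re] at h'
        linarith
    apply hseq.frequently
    apply Eventually.frequently
    have hlt : ∀ᶠ n : ℕ in atTop, (1:ℝ) / ((n:ℝ) + 1) < R := by
      have := (tendsto_one_div_add_atTop_nhds_zero_nat (𝕜 := ℝ))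
      exact this.eventually (gt_mem_nhds hR)
    filter_upwards [hlt] with n hn
    have h0 : (0:ℝ) < 1 / ((n:ℝ) + 1) := by positivity
    have him : (f ((x0 + (1 : ℝ) / (n + 1) : ℝ) : ℂ)).im = 0 := by
      apply hreal
      rw [add_sub_cancel_left, abs_of_pos h0]
      exact hn
    simp only [Function.comp_apply, Complex.conj_ofReal]
    exact (Complex.conj_eq_iff_im.2 him).symm
  have heq := h1.eqOn_of_preconnected_of_frequently_eq h2
    (convex_ball (x0:ℂ) R).isPreconnected (mem_ball_self hR) hfreq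
  intro z hz
  have := heq (ball_conj x0 R z hz)
  simpa using this

/-- the antisymmetrised Poisson formula -/
theorem typ_key (f : ℂ → ℂ) (x0 r h : ℝ) (hh : 0 < h) (hhr : h < r)
    (hf : DiffContOnCl ℂ f (ball (x0 : ℂ) r))
    (hsym : f (x0 - h * I) = (starRingEnd ℂ) (f (x0 + h * I))) :
    2 * (f (x0 + h * I)).im = Real.circleAverage
      (fun z => (4 * h * (r^2 - h^2) / ((r^2 + h^2)^2 - 4 * z.im^2 * h^2)) * (z.im * (f z).im))
      x0 r := by
  have hr : 0 < r := hh.trans hhr
  have hw1 : (x0 + h * I : ℂ) ∈ ball (x0 : ℂ) r := by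
    rw [mem_ball, dist_eq, add_sub_cancel_left]
    simpa [abs_of_pos hh] using hhr
  have hw2 : (x0 - h * I : ℂ) ∈ ball (x0 : ℂ) r := by
    rw [mem_ball, dist_eq, sub_sub_cancel_left]
    simpa [abs_of_pos hh] using hhr
  have hcont : ContinuousOn f (sphere (x0:ℂ) r) := by
    apply hf.continuousOn.mono
    rw [closure_ball _ hr.ne']
    exact sphere_subset_closedBall
  have hci : ∀ w : ℂ, w ∈ ball (x0 : ℂ) r → CircleIntegrable
      (fun z ↦ ((‖z - x0‖ ^ 2 - ‖w - x0‖ ^ 2) / ‖(z - x0) - (w - x0)‖ ^ 2) • f z) x0 r := by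
    intro w hw
    apply ContinuousOn.circleIntegrable hr.le
    refine ContinuousOn.fun_smul ?_ hcont
    apply ContinuousOn.div
    · fun_prop
    · fun_prop
    · intro z hz
      have : z - x0 - (w - x0) ≠ 0 := by
        intro h0
        have : z = w := by linear_combination h0
        rw [this, mem_sphere] at hz
        rw [mem_ball] at hw
        linarith
      positivity
  have e1 := hf.circleAverage_poissonKernel_smul' hw1
  have e2 := hf.circleAverage_poissonKernel_smul' hw2
  have i1 := Complex.imCLM.circleAverage_comp_comm (hci _ hw1)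
  have i2 := Complex.imCLM.circleAverage_comp_comm (hci _ hw2)
  rw [e1] at i1
  rw [e2, hsym] at i2
  simp only [Complex.imCLM_apply, Complex.conj_im] at i1 i2
  have hcim : ∀ w : ℂ, w ∈ ball (x0 : ℂ) r → CircleIntegrable
      (Complex.imCLM ∘ (fun z ↦ ((‖z - x0‖ ^ 2 - ‖w - x0‖ ^ 2) / ‖(z - x0) - (w - x0)‖ ^ 2) • f z))
        x0 r := by
    intro w hw
    have := hci w hw
    simp only [CircleIntegrable, intervalIntegrable_iff] at this ⊢
    exact Complex.imCLM.integrable_comp this
  have e3 : 2 * (f (x0 + h * I)).im = (f (x0 + h * I)).im - (-(f (x0 + h * I)).im) := by ring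
  rw [e3, ← i2, ← i1, ← Real.circleAverage_sub (hcim _ hw1) (hcim _ hw2)]
  apply Real.circleAverage_congr_sphere
  intro z hz
  rw [abs_of_pos hr, mem_sphere, dist_eq] at hz
  have hz1 : ‖z - x0‖^2 = r^2 := by rw [hz]
  have hz2 : (z.re - x0)^2 + z.im^2 = r^2 := by
    rw [← hz1, ← Complex.normSq_eq_norm_sq, Complex.normSq_apply]
    simp
    ring
  have n1 : ‖((x0 + h * I : ℂ)) - x0‖^2 = h^2 := by
    rw [← Complex.normSq_eq_norm_sq, Complex.normSq_apply]
    simp
    ring
  have n2 : ‖((x0 - h * I : ℂ)) - x0‖^2 = h^2 := by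
    rw [← Complex.normSq_eq_norm_sq, Complex.normSq_apply]
    simp
    ring
  have n3 : ‖(z - x0) - (((x0 + h * I : ℂ)) - x0)‖^2 = r^2 - 2 * z.im * h + h^2 := by
    rw [← Complex.normSq_eq_norm_sq, Complex.normSq_apply]
    simp
    linear_combination hz2
  have n4 : ‖(z - x0) - (((x0 - h * I : ℂ)) - x0)‖^2 = r^2 + 2 * z.im * h + h^2 := by
    rw [← Complex.normSq_eq_norm_sq, Complex.normSq_apply]
    simp
    linear_combination hz2
  have hv : |z.im| ≤ r := by
    apply abs_le_of_sq_le_sq _ hr.le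
    nlinarith [sq_nonneg (z.re - x0)]
  obtain ⟨hv1, hv2⟩ := abs_le.1 hv
  have p1 : 0 < r^2 - 2 * z.im * h + h^2 := by
    have : 0 < (r - h)^2 := by
      have : 0 < r - h := by linarith
      positivity
    nlinarith [mul_nonneg (sub_nonneg.2 hv2) hh.le]
  have p2 : 0 < r^2 + 2 * z.im * h + h^2 := by
    have : 0 < (r - h)^2 := by
      have : 0 < r - h := by linarith
      positivity
    nlinarith [mul_nonneg (by linarith : 0 ≤ r + z.im) hh.le]
  simp only [Pi.sub_apply, Function.comp_apply, Complex.imCLM_apply, Complex.smul_im, smul_eq_mul]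
  rw [hz1, n1, n2, n3, n4]
  have p3 : (r^2 + h^2)^2 - 4 * z.im^2 * h^2
      = (r^2 - 2 * z.im * h + h^2) * (r^2 + 2 * z.im * h + h^2) := by ring
  rw [p3]
  obtain ⟨A, hA⟩ : ∃ A : ℝ, A = r^2 - 2 * z.im * h + h^2 := ⟨_, rfl⟩
  obtain ⟨B, hB⟩ : ∃ B : ℝ, B = r^2 + 2 * z.im * h + h^2 := ⟨_, rfl⟩
  rw [← hA] at p1
  rw [← hB] at p2
  rw [← hA, ← hB]
  have hAB : B - A = 4 * z.im * h := by rw [hA, hB]; ring
  have hA0 : A ≠ 0 := p1.ne'
  have hB0 : B ≠ 0 := p2.ne'
  have e4 : (r^2 - h^2) / A * (f z).im - (r^2 - h^2) / B * (f z).im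
      = (r^2 - h^2) * (f z).im * (B - A) / (A * B) := by
    field_simp
  rw [e4, hAB]
  ring

theorem ft_typ : GTyp := by
  intro f x0 R hR hf hreal hpos y0 hy0 hy0R y hy hyR
  have hsym := typ_sym f x0 R hR hf hreal
  obtain ⟨r, hrdef⟩ : ∃ r : ℝ, r = R - (R - y0) / 8 := ⟨_, rfl⟩
  have hrR : r < R := by rw [hrdef]; linarith
  have hy0r : y0 < r := by rw [hrdef]; linarith
  have hr78 : 7 / 8 * R ≤ r := by rw [hrdef]; linarith
  have hyr : y < r := by linarith
  have hr : 0 < r := by linarith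
  have hsub : closedBall (x0:ℂ) r ⊆ ball (x0:ℂ) R := closedBall_subset_ball hrR
  have hdc : DiffContOnCl ℂ f (ball (x0 : ℂ) r) := by
    apply DifferentiableOn.diffContOnCl
    rw [closure_ball _ hr.ne']
    exact hf.mono hsub
  have hs : ∀ h : ℝ, 0 < h → h < r → f (x0 - h * I) = (starRingEnd ℂ) (f (x0 + h * I)) := by
    intro h h0 h1
    rw [← hsym]
    · simp [sub_eq_add_neg]
    · rw [mem_ball, dist_eq, add_sub_cancel_left]
      simp [abs_of_pos h0]
      linarith
  have k0 := typ_key f x0 r y0 hy0 hy0r hdc (hs y0 hy0 hy0r)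
  have k1 := typ_key f x0 r y hy hyr hdc (hs y hy hyr)
  have hcont : ContinuousOn f (sphere (x0:ℂ) r) := by
    apply hf.continuousOn.mono
    exact sphere_subset_closedBall.trans hsub
  have hvr : ∀ z ∈ sphere (x0:ℂ) r, z.im^2 ≤ r^2 := by
    intro z hz
    rw [mem_sphere, dist_eq] at hz
    rw [← hz, ← Complex.normSq_eq_norm_sq, Complex.normSq_apply]
    simp
    nlinarith [sq_nonneg (z.re - x0)]
  have hden : ∀ h : ℝ, 0 < h → h < r → ∀ z ∈ sphere (x0:ℂ) r,
      (r^2 - h^2)^2 ≤ (r^2 + h^2)^2 - 4 * z.im^2 * h^2 := by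
    intro h h0 h1 z hz
    nlinarith [mul_nonneg (sub_nonneg.2 (hvr z hz)) (sq_nonneg h)]
  have hpd : ∀ h : ℝ, 0 < h → h < r → 0 < r^2 - h^2 := by
    intro h h0 h1
    nlinarith
  have hci : ∀ h : ℝ, 0 < h → h < r → CircleIntegrable
      (fun z => (4 * h * (r^2 - h^2) / ((r^2 + h^2)^2 - 4 * z.im^2 * h^2)) * (z.im * (f z).im))
      x0 r := by
    intro h h0 h1
    apply ContinuousOn.circleIntegrable hr.le
    apply ContinuousOn.mul
    · apply ContinuousOn.div
      · fun_prop
      · fun_prop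
      · intro z hz
        have := hden h h0 h1 z hz
        have h2 := hpd h h0 h1
        have h3 : 0 < (r^2 - h^2)^2 := by positivity
        linarith
    · apply ContinuousOn.mul
      · fun_prop
      · exact Complex.continuous_im.comp_continuousOn hcont
  have hG : ∀ z ∈ sphere (x0:ℂ) r, 0 ≤ z.im * (f z).im := by
    intro z hz
    have hzb : z ∈ ball (x0:ℂ) R := hsub (sphere_subset_closedBall hz)
    rcases lt_trichotomy z.im 0 with h | h | h
    · have h1 : 0 < (f ((starRingEnd ℂ) z)).im := by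
        apply hpos _ (ball_conj x0 R z hzb)
        simp [h]
      rw [hsym z hzb, Complex.conj_im] at h1
      nlinarith
    · rw [h, zero_mul]
    · exact (mul_pos h (hpos z hzb h)).le
  obtain ⟨c, hc⟩ : ∃ c : ℝ, c = (1 - y0 / R)^2 / (2 * y0) * y := ⟨_, rfl⟩
  have hgoal : c * (2 * (f (x0 + y0 * I)).im) ≤ 2 * (f (x0 + y * I)).im := by
    rw [k0, k1, ← smul_eq_mul c, ← Real.circleAverage_fun_smul]
    apply Real.circleAverage_mono
    · have := (hci y0 hy0 hy0r).const_smul (a := c)
      exact this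
    · exact hci y hy hyr
    · intro z hz
      rw [abs_of_pos hr] at hz
      simp only [smul_eq_mul]
      rw [← mul_assoc]
      apply mul_le_mul_of_nonneg_right _ (hG z hz)
      have d0 := hden y0 hy0 hy0r z hz
      have d0' := hpd y0 hy0 hy0r
      have d1' := hpd y hy hyr
      have d1 := hden y hy hyr z hz
      -- upper bound of the first kernel
      have u0 : 4 * y0 * (r^2 - y0^2) / ((r^2 + y0^2)^2 - 4 * z.im^2 * y0^2)
          ≤ 4 * y0 / (r^2 - y0^2) := by
        have h3 : 0 < (r^2 - y0^2)^2 := by positivity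
        calc 4 * y0 * (r^2 - y0^2) / ((r^2 + y0^2)^2 - 4 * z.im^2 * y0^2)
            ≤ 4 * y0 * (r^2 - y0^2) / (r^2 - y0^2)^2 := by
              apply div_le_div_of_nonneg_left _ h3 d0
              positivity
          _ = 4 * y0 / (r^2 - y0^2) := by
              field_simp
      have u1 : 4 * y * (r^2 - y^2) / (r^2 + y^2)^2 ≤
          4 * y * (r^2 - y^2) / ((r^2 + y^2)^2 - 4 * z.im^2 * y^2) := by
        apply div_le_div_of_nonneg_left
        · positivity
        · have h3 : 0 < (r^2 - y^2)^2 := by positivity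
          linarith
        · nlinarith [mul_nonneg (sq_nonneg z.im) (sq_nonneg y)]
      have hc0 : 0 ≤ c := by rw [hc]; positivity
      refine le_trans (mul_le_mul_of_nonneg_left u0 hc0) (le_trans ?_ u1)
      -- numerical comparison
      have e1 : c * (4 * y0 / (r^2 - y0^2)) = 2 * y * ((R - y0)^2 / (R^2 * (r^2 - y0^2))) := by
        rw [hc]
        field_simp
        ring
      have e2 : (R - y0)^2 / (R^2 * (r^2 - y0^2)) ≤ 64 / 49 / R^2 := by
        have a1 : r - y0 = 7 / 8 * (R - y0) := by rw [hrdef]; ring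
        have a2 : 7 / 8 * R ≤ r + y0 := by linarith
        have a3 : 49 / 64 * ((R - y0) * R) ≤ r^2 - y0^2 := by
          have : r^2 - y0^2 = (r - y0) * (r + y0) := by ring
          rw [this, a1]
          have : 0 ≤ 7 / 8 * (R - y0) := by linarith
          nlinarith [mul_le_mul_of_nonneg_left a2 this]
        rw [div_div, div_le_div_iff₀ (by positivity) (by positivity)]
        have a4 : (R - y0)^2 ≤ (R - y0) * R := by nlinarith
        have a5 : 49 / 64 * (R - y0)^2 ≤ r^2 - y0^2 := by linarith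
        have hR2 : 0 < R^2 := by positivity
        nlinarith [mul_le_mul_of_nonneg_left a5 hR2.le]
      have e3 : 4 * y * (r^2 - y^2) / (r^2 + y^2)^2 = 2 * y * (2 * (r^2 - y^2) / (r^2 + y^2)^2) := by
        ring
      rw [e1, e3]
      apply mul_le_mul_of_nonneg_left _ (by positivity)
      refine e2.trans ?_
      have hy7 : 7 * y ≤ r := by linarith
      have hy49 : 49 * y^2 ≤ r^2 := by nlinarith
      have b1 : 48 / 49 * r^2 ≤ r^2 - y^2 := by nlinarith
      have b2 : r^2 + y^2 ≤ 50 / 49 * r^2 := by nlinarith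
      have hr2 : 0 < r^2 := by positivity
      have b3 : (r^2 + y^2)^2 ≤ (50 / 49 * r^2)^2 := by
        apply pow_le_pow_left₀ (by positivity) b2
      calc 64 / 49 / R^2 ≤ 64 / 49 / r^2 := by
            apply div_le_div_of_nonneg_left (by norm_num) hr2
            apply pow_le_pow_left₀ hr.le hrR.le
        _ ≤ 2 * (48 / 49 * r^2) / (50 / 49 * r^2)^2 := by
            rw [div_le_div_iff₀ hr2 (by positivity)]
            have : 0 < r^2 * r^2 := by positivity
            nlinarith
        _ ≤ 2 * (r^2 - y^2) / (r^2 + y^2)^2 := by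
            apply div_le_div₀
            · nlinarith
            · nlinarith
            · positivity
            · exact b3
  have e : (f (x0 + y0 * I)).im * (1 - y0 / R)^2 / (2 * y0) * y = c * (f (x0 + y0 * I)).im := by
    rw [hc]; ring
  rw [e]
  linarith

end Pool.Agent.Helper52.FT
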